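import Pool.Agent.N848.AW.Stm

/-!
# Project CK (helper843): the class `D ≡ 1` modulo `8` over `ℚ(√-7)`

The squarefree `D ∈ RR = ℤ[w]`, `D ≡ 1` modulo `8`, prime to `√-7`: the natural density of those for
which the matrix of the quadratic symbols of project QK (`Pool/Agent/R426/QK/Stm.lean`, `Gd`) is not
singular is again `c2 = ∏ (1 - 2^(-i))`. The labels `gg`, `hh` of the primes (their classes modulo
`8`) are those of project AW (`Pool/Agent/N848/AW/Stm.lean`).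
-/

set_option autoImplicit false
set_option linter.unusedVariables false

open scoped Classical

namespace Pool.Agent.N843.CK

open Finset
open Pool.Agent.Y698 Pool.Agent.Y698.SG
open Pool.Agent.Y703.CX (jj XX eL zz kk)
open Pool.Agent.R426.QK
open Pool.Agent.R426
open Pool.Agent.N848.AW (gg hh r8)

/-- the class modulo `8` of the product is `1` -/
def C1 (S : Finset RR) : Prop := ∑ π ∈ S, gg π = 0 ∧ ∑ π ∈ S, hh π = 0

/-- the sets of the class with norm at most `X` -/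
noncomputable def S1 (X : ℕ) : Finset (Finset RR) := (SS X).filter C1

/-- the labels are not degenerate and the union is in the class -/
def Nd1 (S₀ S₁ : Finset RR) : Prop :=
  (∑ u ∈ S₀, gg u + ∑ π ∈ S₁, gg π = 0) ∧ (∑ u ∈ S₀, hh u + ∑ π ∈ S₁, hh π = 0) ∧ Nd S₀ S₁

/-- CK-BOX: the count in a box. -/
def S_BOX1 : Prop := RecP → S_EQ → ∀ (ε : ℝ) (V : ℕ), LAE ε V → ∀ (ι : Type) [Fintype ι] [LinearOrder ι]
  (C : ι → Finset RR) (X : ι → ℕ) (κ : ℝ) (S₀ : Finset RR), 0 ≤ κ → (∀ i, (C i).card ≤ X i) →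
  HB C X κ → (∀ u ∈ S₀, Pq u) → (∀ i, ∀ π ∈ C i, Pq π ∧ π ∉ S₀) →
  (∀ i l, i ≠ l → Disjoint (C i) (C l)) →
  (∀ p ∈ Fintype.piFinset C, 4 * S₀.card + V ≤ (univ.filter fun i => tt (p i) = 1).card ∧
    ∑ u ∈ S₀, tt u + ∑ i, tt (p i) = 0) →
  |(((Fintype.piFinset C).filter fun p => Nd1 S₀ (univ.image p) ∧ QK.Gd (S₀ ∪ univ.image p)).card : ℝ) -
      c2 * (((Fintype.piFinset C).filter fun p => Nd1 S₀ (univ.image p)).card : ℝ)| ≤
    ε * (((Fintype.piFinset C).filter fun p => Nd1 S₀ (univ.image p)).card : ℝ) +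
    2 ^ ((S₀.card + 4) * Fintype.card ι + (prs ι).card) * (κ * ∏ j, (X j : ℝ))

/-- CK-KEY: the sum over the boxes. -/
def S_KEY1 : Prop := RecP → S_BIL → S_EQ → S_BOX1 → ∃ C : ℝ, 1 ≤ C ∧
  ∀ (ε : ℝ) (V : ℕ), 0 < ε → LAE ε V →
  ∀ (X z H k N : ℕ) (κ : ℝ), 1 ≤ X → 1 ≤ H → 1 ≤ z → 0 ≤ κ → C ≤ κ ^ 24 * z →
  (H : ℝ) * Real.log X < N →
  |(((Rg X z H k V).filter fun S => Nd1 (sm z S) (la z S) ∧ QK.Gd S).card : ℝ) -
      c2 * (((Rg X z H k V).filter fun S => Nd1 (sm z S) (la z S)).card : ℝ)| ≤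
    ε * ((Rg X z H k V).card : ℝ) +
    (9 * N + 9 : ℝ) ^ k * (3 ^ (9 * k ^ 2 + 9) * κ) * (X * (1 + Real.log X))

/-- CK-LOW: the class has positive density. -/
def S_LOW1 : Prop := ∃ (c : ℝ) (X₀ : ℕ), 0 < c ∧ ∀ X : ℕ, X₀ ≤ X → c * X ≤ ((S1 X).card : ℝ)

/-- the proportion of the good sets in the class -/
def S_DQ1 : Prop := Filter.Tendsto
  (fun X : ℕ => (((S1 X).filter QK.Gd).card : ℝ) / ((S1 X).card : ℝ)) Filter.atTop (nhds c2)

/-- CK-ASY: the final asymptotics. -/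
def S_ASY1 : Prop := RecP → S_BIL → S_EQ → S_LA → S_BOX1 → S_KEY1 → S_CNT → S_BAD → S_FEW → S_LOW1 →
  S_C2 → S_DQ1

/-- the class of the elements -/
def Cls1 (D : RR) : Prop := Squarefree D ∧ (8 : RR) ∣ D - 1 ∧ ¬ fR ∣ D

/-- CK-CLS: the class of `D` in terms of the labels of the prime divisors. -/
def S_CLS1 : Prop :=
  (∀ D : RR, Cls1 D → (∀ π ∈ QK.PD D, Pq π) ∧ ∏ π ∈ QK.PD D, π = D ∧
    ∑ π ∈ QK.PD D, tt π = 0 ∧ C1 (QK.PD D)) ∧
  ∀ S : Finset RR, (∀ π ∈ S, Pq π) → ∑ π ∈ S, tt π = 0 → C1 S → Cls1 (∏ π ∈ S, π)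

/-- FINAL: the natural density of the good elements in the class, and the class has positive
density. -/
def S_DEN1 : Prop :=
  Filter.Tendsto (fun X : ℕ => ({D : RR | nrm D ≤ X ∧ Cls1 D ∧ QK.Gd (QK.PD D)}.ncard : ℝ) /
    ({D : RR | nrm D ≤ X ∧ Cls1 D}.ncard : ℝ)) Filter.atTop (nhds c2) ∧
  ∃ (c : ℝ) (X₀ : ℕ), 0 < c ∧ ∀ X : ℕ, X₀ ≤ X → c * X ≤ ({D : RR | nrm D ≤ X ∧ Cls1 D}.ncard : ℝ)

/-- CK-NS: the translation. -/
def S_NS1 : Prop := S_CLS1 → S_DQ1 → S_LOW1 → S_DEN1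

end Pool.Agent.N843.CK
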