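import Pool.Agent.N843.CK.Eu

/-!
# The central values
-/

set_option autoImplicit false
set_option linter.unusedSectionVars false
set_option linter.unusedSimpArgs false
set_option linter.unusedVariables false

open Filter IsDedekindDomain
open scoped Topology PeriodPair NumberTheorySymbols

namespace Pool.Agent.N843.K

open H667R3 Pool.Agent.TH936.CW Pool.Agent.W192.HK Pool.Agent.TH936.PU
open Pool.Agent.N843 Pool.Agent.N843.X
open Pool.Agent.Y698 (RR al al_sq al_ne bl bl_ne al_mul_bl LD aR aR_coe bR bR_coe cX cY co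
  v_two v_two_lt fin_quot aR_mul_bR two_coe nR mul_cj cj cj_coe exists_gen e7 fR nR_aR nR_bR
  AP EX card_sp)
open Pool.Agent.Y698.SG (Pe sy gd mc mr inp)
open Pool.Agent.R384 (OO)
open Pool.Agent.R426.QD (r4 Ev tp Pn)
open Pool.Agent.N843.E (xE nonvanE)

/-- **the central values of all the odd weights** -/
theorem coreO {D : OO} {S : Finset RR} (h : FK (pE D) S)
    (hg : gd (mc fun p : RR => p) (mr fun p : RR => p) S ≠ 0) {z : ℂ} (hz : z ^ 2 = z - 2) :
    ∃ ψ : Ideal OO → ℂ, PsiK 1 D z ψ ∧ ∀ n : ℕ, J1 ψ (2 * n + 1) ∧ J1 ψ (1 - (2 * n + 1)) := by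
  classical
  have hbasic := Pool.Agent.W287.HK.h_basic
  have hcls := Pool.Agent.W571.HK.h_cls hbasic
  have hfp := Pool.Agent.W53.HK.h_fp hbasic hcls
  have hfpr := Pool.Agent.W366.HK.h_fpr hbasic hcls
  have hlat := Pool.Agent.W585.HK.h_lat hbasic
  have hker := Pool.Agent.W692.HK.h_ker hbasic hcls hfpr
  have hcnt := Pool.Agent.W584.HK.h_cnt hbasic hcls hfpr hlat hker
  have hdec := Pool.Agent.W856.HK.h_dec hbasic
  have hgauss := Pool.Agent.W636.HK.h_gauss hbasic hfp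
  have hpois := Pool.Agent.W348.HK.h_pois hbasic
  have htheta := Pool.Agent.TH936.HK.h_theta hbasic hfp hdec hgauss hpois hcnt
  have hafe := Pool.Agent.TH936.HK.h_afe hbasic hfp hcnt hgauss htheta
  have hC := cx_ev (Fe.of h.ev)
  have key : ∀ n : ℕ, J1 (psi (fun g => e7 g * X.ch (fun p : RR => p) S g)) (2 * n + 1) := by
    intro n
    have h2 := nonvanX hbasic hfp hcnt hdec hafe inp.rec' (Fe.of h.ev) hg h.cA h.cB n
    have h3 := hC.oneJ hbasic h2
    push_cast at h3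
    exact h3
  rcases conj_z hz with rfl | rfl
  · exact ⟨_, psi_odd h, fun n => ⟨key n, (key n).swap⟩⟩
  · refine ⟨_, (psi_odd h).conj, fun n => ⟨?_, (key n).conj⟩⟩
    have h1 := (key n).swap.conj
    rwa [sub_sub_cancel] at h1

/-- **the central values of all the even weights** -/
theorem coreV {D : OO} {S : Finset RR} (h : FK (pE D) S)
    (hg : gd (mc fun p : RR => p) (mr fun p : RR => p) S ≠ 0) {z : ℂ} (hz : z ^ 2 = z - 2) :
    ∃ ψ : Ideal OO → ℂ, PsiK (-1) D z ψ ∧ ∀ n : ℕ, J1 ψ (2 * n + 2) ∧ J1 ψ (1 - (2 * n + 2)) := by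
  classical
  have hbasic := Pool.Agent.W287.HK.h_basic
  have hcls := Pool.Agent.W571.HK.h_cls hbasic
  have hfp := Pool.Agent.W53.HK.h_fp hbasic hcls
  have hfpr := Pool.Agent.W366.HK.h_fpr hbasic hcls
  have hlat := Pool.Agent.W585.HK.h_lat hbasic
  have hker := Pool.Agent.W692.HK.h_ker hbasic hcls hfpr
  have hcnt := Pool.Agent.W584.HK.h_cnt hbasic hcls hfpr hlat hker
  have hdec := Pool.Agent.W856.HK.h_dec hbasic
  have hgauss := Pool.Agent.W636.HK.h_gauss hbasic hfp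
  have hpois := Pool.Agent.W348.HK.h_pois hbasic
  have htheta := Pool.Agent.TH936.HK.h_theta hbasic hfp hdec hgauss hpois hcnt
  have hafe := Pool.Agent.TH936.HK.h_afe hbasic hfp hcnt hgauss htheta
  have hC := xE_cxK h
  have key : ∀ n : ℕ, J1 (psi (xE S)) (2 * n + 2) := by
    intro n
    have h2 := nonvanE hbasic hfp hcnt hdec hafe inp.rec' (Fe.of h.ev) hg h.cA h.cB n
    have h3 := hC.oneJ hbasic (e := 2 * n + 1) h2
    have e : (((2 * n + 1 : ℕ) : ℤ) + 1) = 2 * n + 2 := by push_cast; ring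
    rw [e] at h3
    exact h3
  rcases conj_z hz with rfl | rfl
  · exact ⟨_, psi_even h, fun n => ⟨key n, (key n).swap⟩⟩
  · refine ⟨_, (psi_even h).conj, fun n => ⟨?_, (key n).conj⟩⟩
    have h1 := (key n).swap.conj
    rwa [sub_sub_cancel] at h1

/-- **the central values of all the weights** -/
theorem coreK {D : OO} (hD : FO D) {e : ℤ} (he : e = 1 ∨ e = -1) {z : ℂ} (hz : z ^ 2 = z - 2) :
    ∃ ψ : Ideal OO → ℂ, PsiK e D z ψ ∧
      (∀ A : HeightOneSpectrum OO, 14 * ((e : OO) * D) ∉ A.asIdeal →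
        ((Nat.card {x : (OO ⧸ A.asIdeal) × (OO ⧸ A.asIdeal) //
          ((mK ((e : OO) * D)).map (Ideal.Quotient.mk A.asIdeal)).toAffine.Equation x.1 x.2} :
            ℕ) : ℂ) =
        (Nat.card (OO ⧸ A.asIdeal) : ℂ) - (ψ A.asIdeal + (starRingEnd ℂ) (ψ A.asIdeal))) ∧
      ∀ k : ℤ, 0 < k → Sg e k → J1 ψ k ∧ J1 ψ (1 - k) := by
  obtain ⟨S, hS, hg⟩ := hD.fam
  obtain ⟨j, hj⟩ : ∃ j : OO, D = 1 + 4 * j := by
    obtain ⟨c, hc⟩ := hD.m8
    exact ⟨2 * c, by linear_combination hc⟩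
  obtain ⟨ψ0, g1, g2⟩ := coreO hS hg hz
  rcases he with rfl | rfl
  · refine ⟨ψ0, g1, fun A hA => eulZ hS hj hz g1 (Or.inl rfl) g1 A hA, ?_⟩
    rintro k hk (⟨-, hk'⟩ | ⟨hk', -⟩)
    · obtain ⟨m, hm⟩ := hk'
      obtain ⟨n, rfl⟩ : ∃ n : ℕ, m = n := ⟨m.toNat, by omega⟩
      rw [hm]
      exact g2 n
    · omega
  · obtain ⟨ψ, h1, h3⟩ := coreV hS hg hz
    refine ⟨ψ, h1, fun A hA => eulZ hS hj hz g1 (Or.inr rfl) h1 A hA, ?_⟩
    rintro k hk (⟨hk', -⟩ | ⟨-, hk'⟩)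
    · omega
    · obtain ⟨m, hm⟩ := hk'
      obtain ⟨n, hn⟩ : ∃ n : ℕ, m = n + 1 := ⟨(m - 1).toNat, by omega⟩
      have e : k = 2 * (n : ℤ) + 2 := by omega
      rw [e]
      exact h3 n

end Pool.Agent.N843.K
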