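import Pool.Agent.N843.CK.Sy
import Pool.Agent.N843.Ek

/-!
# The Hecke characters and the Euler factors
-/

set_option autoImplicit false
set_option linter.unusedSectionVars false
set_option linter.unusedSimpArgs false
set_option linter.unusedVariables false

open IsDedekindDomain
open scoped NumberTheorySymbols

namespace Pool.Agent.N843.K

open Pool.Agent.N843 Pool.Agent.N843.X
open Pool.Agent.Y698 (RR al al_sq aR aR_coe bR bR_coe cX cY co nR mul_cj cj_coe exists_gen e7 fR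
  nR_aR nR_bR sp_eq e7_mul e7_neg e7_one fR_ne irr_fR AP EX card_sp)
open Pool.Agent.Y698.SG (Pe sy gd mc mr inp lg lg_one lg_neg_one lg_mul sgn_prod sy_sgn sy_per)
open Pool.Agent.R426.QD (r4 Ev tp Pn Fa r4_a r4_unit r4_m4 exists_fac sy_mulO sy_oneO)
open Pool.Agent.W192.HK (sp)
open Pool.Agent.R384 (OO KD em om s7 Sqm)
open Pool.Agent.N843.E (xE e4 e4_nR cnt_EX cnt_char two_ne_of)

open scoped Classical

/-- the norm -/
def nm (x : OO) : ℤ := x.re ^ 2 + x.re * x.im + 2 * x.im ^ 2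

/-- the quadratic character of `K(√(e D))` -/
noncomputable def quad (e : ℤ) (D x : OO) : ℤ :=
  (if e = -1 then ZMod.χ₄ ((nm x : ℤ) : ZMod 4) else 1) * sym D x

/-- the Hecke character of the twist by `e D` -/
structure PsiK (e : ℤ) (D : OO) (z : ℂ) (ψ : Ideal OO → ℂ) : Prop where
  mul : ∀ I J : Ideal OO, ψ (I * J) = ψ I * ψ J
  val : ∀ x : OO, ψ (Ideal.span {x}) = (jacobiSym (x.re + 4 * x.im) 7 : ℂ) *
    (quad e D x : ℂ) * ((x.re : ℂ) + (x.im : ℂ) * z)

lemma PsiK.conj {e : ℤ} {D : OO} {z : ℂ} {ψ : Ideal OO → ℂ} (h : PsiK e D z ψ) :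
    PsiK e D ((starRingEnd ℂ) z) (fun I => (starRingEnd ℂ) (ψ I)) := by
  refine ⟨fun I J => by rw [h.mul, map_mul], fun x => ?_⟩
  rw [h.val, map_mul, map_mul, map_intCast (starRingEnd ℂ), map_intCast (starRingEnd ℂ), map_add,
    map_mul, map_intCast (starRingEnd ℂ), map_intCast (starRingEnd ℂ)]

variable {D : OO} {S : Finset RR}

lemma psi_odd (h : FK (pE D) S) :
    PsiK 1 D al (psi (fun g => e7 g * X.ch (fun p : RR => p) S g)) := by
  have hC := cx_ev (Fe.of h.ev)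
  refine ⟨hC.psi_mul, fun x => ?_⟩
  rw [hC.psi_sp, pH_coe, e7_pH]
  unfold quad
  rw [if_neg (by norm_num), one_mul, sym_eq h]
  rfl

lemma xE_cxK (h : FK (pE D) S) : Cx (4 * (fR * ∏ p ∈ S, p)) (xE S) :=
  E.cx_four (cx_ev (Fe.of h.ev)) (E.no_fR (Fe.of h.ev))

lemma psi_even (h : FK (pE D) S) : PsiK (-1) D al (psi (xE S)) := by
  have hC := xE_cxK h
  refine ⟨hC.psi_mul, fun x => ?_⟩
  rw [hC.psi_sp, pH_coe]
  unfold xE quad
  rw [if_pos rfl, e7_pH, e4_nR, nR_pH, Int.cast_mul, sym_eq h]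
  have e1 : pE x = pH x := rfl
  rw [e1]
  unfold nm
  ring

/-- the relation of the characters -/
lemma PsiK.eq {z : ℂ} {ψ ψ0 : Ideal OO → ℂ} (h : PsiK (-1) D z ψ) (h0 : PsiK 1 D z ψ0) (x : OO) :
    ψ (Ideal.span {x}) = ((ZMod.χ₄ ((nm x : ℤ) : ZMod 4) : ℤ) : ℂ) * ψ0 (Ideal.span {x}) := by
  rw [h.val, h0.val]
  unfold quad
  rw [if_pos rfl, if_neg (by norm_num)]
  push_cast
  ring

/-- **the Euler factors**, the long model -/
theorem eulK (h : FK (pE D) S) {j : OO} (hj : D = 1 + 4 * j) {z : ℂ} (hz : z ^ 2 = z - 2)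
    {ψ : Ideal OO → ℂ} (hψ : PsiK 1 D z ψ) (A : HeightOneSpectrum OO)
    (h7D : 7 * D ∉ A.asIdeal) :
    ((Nat.card {x : (OO ⧸ A.asIdeal) × (OO ⧸ A.asIdeal) //
        (EX (OO ⧸ A.asIdeal) (Ideal.Quotient.mk A.asIdeal j)).toAffine.Equation x.1 x.2} : ℕ) : ℂ) =
      (Nat.card (OO ⧸ A.asIdeal) : ℂ) - (ψ A.asIdeal + (starRingEnd ℂ) (ψ A.asIdeal)) := by
  classical
  obtain ⟨g, hg⟩ : ∃ g : OO, A.asIdeal = Ideal.span {g} := by
    obtain ⟨g, hg⟩ := (IsPrincipalIdealRing.principal A.asIdeal).principal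
    exact ⟨g, hg⟩
  have hpr : Prime g := by
    have h1 := A.isPrime
    have h2 := A.ne_bot
    rw [hg] at h1 h2
    rw [Ne, Ideal.span_singleton_eq_bot] at h2
    exact (Ideal.span_singleton_prime h2).1 h1
  have hgd : ¬ g ∣ 7 * D := by
    rw [← Ideal.mem_span_singleton, ← hg]
    exact h7D
  rw [hg, hψ.val]
  have hPr : Prime (pH g) := pH_prime.2 hpr
  have hI : (Ideal.span {g}).IsPrime := (Ideal.span_singleton_prime hpr.ne_zero).2 hpr
  have hM : (Ideal.span {g}).IsMaximal := hI.isMaximal (by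
    rw [Ne, Ideal.span_singleton_eq_bot]
    exact hpr.ne_zero)
  have hcard := card_map g
  have hfin : Finite (OO ⧸ Ideal.span {g}) := by
    apply Nat.finite_of_card_ne_zero
    have h3 := Pool.Agent.Y698.nR_pos hPr.ne_zero
    rw [← hcard] at h3
    omega
  letI : Field (OO ⧸ Ideal.span {g}) := Ideal.Quotient.field _
  set φ : RR →+* OO ⧸ Ideal.span {g} :=
    (Ideal.Quotient.mk (Ideal.span {g})).comp (pE.symm : RR →+* OO) with hφd
  have hφH : ∀ x : OO, φ (pH x) = Ideal.Quotient.mk (Ideal.span {g}) x := by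
    intro x
    rw [hφd]
    show Ideal.Quotient.mk (Ideal.span {g}) (pE.symm (pE x)) = _
    rw [RingEquiv.symm_apply_apply]
  have hs : Function.Surjective φ := by
    intro y
    obtain ⟨x, rfl⟩ := Ideal.Quotient.mk_surjective y
    exact ⟨pH x, hφH x⟩
  have hφ : ∀ x, φ x = 0 ↔ x ∈ sp (pH g) := by
    intro x
    obtain ⟨y, rfl⟩ := pH_surj x
    rw [hφH, Ideal.Quotient.eq_zero_iff_mem, Ideal.mem_span_singleton, pH_mem]
  have h7 : ¬ pH g ∣ 7 := by
    rw [← map_ofNat pH 7, pH_dvd]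
    intro h
    exact hgd (h.mul_right _)
  have hDg : ¬ pH g ∣ pH D := by
    rw [pH_dvd]
    intro h
    exact hgd (h.mul_left _)
  have hprod : ∏ p ∈ S, p = pH D := h.prod.symm
  have hne : ∀ i ∈ S, i ∉ sp (pH g) := by
    intro i hi h
    rw [Ideal.mem_span_singleton] at h
    apply hDg
    rw [← hprod]
    exact h.trans (Finset.dvd_prod_of_mem _ hi)
  have hJ : ∏ i ∈ S, i = 1 + 4 * pH j := by
    rw [hprod, hj, map_add, map_mul, map_one, map_ofNat]
  have key := Pool.Agent.R426.QD.trace_D (OO ⧸ Ideal.span {g}) hPr h7 hcard φ hs hφ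
    (π := fun p : RR => p) h.ev.fa.pn h.ev.tp hne hJ
  have e0 : φ (pH j) = Ideal.Quotient.mk (Ideal.span {g}) j := hφH j
  rw [e0] at key
  have e1 : ∏ i ∈ S, sy i (pH g) = ((quad 1 D g : ℤ) : ℂ) := by
    unfold quad
    rw [if_neg (by norm_num), one_mul]
    exact (sym_eq h g).symm
  rw [e1, e7_pH, tr_eq] at key
  have h3 : (starRingEnd ℂ) ((jacobiSym (g.re + 4 * g.im) 7 : ℂ) *
      (quad 1 D g : ℂ) *
      ((g.re : ℂ) + (g.im : ℂ) * z)) = (jacobiSym (g.re + 4 * g.im) 7 : ℂ) *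
      (quad 1 D g : ℂ) *
      ((g.re : ℂ) + (g.im : ℂ) * (1 - z)) := by
    have h4 : (starRingEnd ℂ) z = 1 - z := by
      rcases conj_z hz with h | h
      · rw [h, al_cj]
      · rw [h, Complex.conj_conj, al_cj]; ring
    rw [map_mul, map_mul, map_intCast (starRingEnd ℂ), map_intCast (starRingEnd ℂ), map_add, map_mul,
      map_intCast (starRingEnd ℂ), map_intCast (starRingEnd ℂ), h4]
  rw [h3]
  push_cast at key
  have e2 : ((Nat.card (AP (EX (OO ⧸ Ideal.span {g}) (Ideal.Quotient.mk (Ideal.span {g}) j))) : ℕ) : ℂ) =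
      ((Nat.card {x : (OO ⧸ Ideal.span {g}) × (OO ⧸ Ideal.span {g}) //
        (EX (OO ⧸ Ideal.span {g}) (Ideal.Quotient.mk (Ideal.span {g}) j)).toAffine.Equation x.1 x.2} : ℕ) : ℂ) :=
    rfl
  rw [e2] at key
  linear_combination -key

/-! ### the short models -/

/-- `y² = x³ - 3 d x² - 32 d² x - 64 d³` -/
def mK {R : Type} [CommRing R] (d : R) : WeierstrassCurve R := ⟨0, -3 * d, 0, -32 * d ^ 2, -64 * d ^ 3⟩

lemma mK_map {R F : Type} [CommRing R] [CommRing F] (f : R →+* F) (d : R) :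
    (mK d).map f = mK (f d) := by
  unfold mK WeierstrassCurve.map
  ext
  · exact map_zero f
  · show f (-3 * d) = -3 * f d
    rw [map_mul, map_neg, map_ofNat]
  · exact map_zero f
  · show f (-32 * d ^ 2) = -32 * f d ^ 2
    rw [map_mul, map_neg, map_ofNat, map_pow]
  · show f (-64 * d ^ 3) = -64 * f d ^ 3
    rw [map_mul, map_neg, map_ofNat, map_pow]

section points

variable {F : Type} [Field F] [Fintype F] [DecidableEq F]

lemma cnt_mK (d : F) : Nat.card {v : F × F // (mK d).toAffine.Equation v.1 v.2} =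
    Nat.card {v : F × F // v.2 ^ 2 =
      (fun x => x ^ 3 - 3 * d * x ^ 2 - 32 * d ^ 2 * x - 64 * d ^ 3) v.1} := by
  refine Nat.card_congr (Equiv.subtypeEquivRight fun v => ?_)
  rw [WeierstrassCurve.Affine.equation_iff]
  have e1 : (mK d).toAffine.a₁ = 0 := rfl
  have e2 : (mK d).toAffine.a₂ = -3 * d := rfl
  have e3 : (mK d).toAffine.a₃ = 0 := rfl
  have e4' : (mK d).toAffine.a₄ = -32 * d ^ 2 := rfl
  have e6 : (mK d).toAffine.a₆ = -64 * d ^ 3 := rfl
  rw [e1, e2, e3, e4', e6]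
  constructor
  · intro h
    show v.2 ^ 2 = _
    linear_combination h
  · intro h
    have h' : v.2 ^ 2 = v.1 ^ 3 - 3 * d * v.1 ^ 2 - 32 * d ^ 2 * v.1 - 64 * d ^ 3 := h
    linear_combination h'

lemma cnt_pos (hF : ringChar F ≠ 2) {d j : F} (hd : d = 1 + 4 * j) :
    Nat.card {v : F × F // (mK d).toAffine.Equation v.1 v.2} =
      Nat.card {v : F × F // (EX F j).toAffine.Equation v.1 v.2} := by
  rw [cnt_mK, cnt_EX hF, hd]

lemma cnt_neg (hF : ringChar F ≠ 2) (d : F) :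
    ((Nat.card {v : F × F // (mK (-d)).toAffine.Equation v.1 v.2} : ℕ) : ℤ) - Fintype.card F =
      ZMod.χ₄ (Fintype.card F) *
    (((Nat.card {v : F × F // (mK d).toAffine.Equation v.1 v.2} : ℕ) : ℤ) - Fintype.card F) := by
  have a1 := cnt_char hF (fun x : F => x ^ 3 - 3 * (-d) * x ^ 2 - 32 * (-d) ^ 2 * x -
    64 * (-d) ^ 3)
  have a2 := cnt_char hF (fun x : F => x ^ 3 - 3 * d * x ^ 2 - 32 * d ^ 2 * x - 64 * d ^ 3)
  rw [cnt_mK, cnt_mK, a1, a2, add_sub_cancel_left, add_sub_cancel_left,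
    ← quadraticChar_neg_one hF, Finset.mul_sum]
  rw [← Equiv.sum_comp (Equiv.neg F) (fun x : F => quadraticChar F (x ^ 3 - 3 * (-d) * x ^ 2 -
    32 * (-d) ^ 2 * x - 64 * (-d) ^ 3))]
  refine Finset.sum_congr rfl fun x _ => ?_
  rw [← map_mul]
  congr 1
  rw [Equiv.neg_apply]
  ring

end points

lemma two_notK {d : OO} {A : HeightOneSpectrum OO} (h : 14 * d ∉ A.asIdeal) :
    (2 : OO) ∉ A.asIdeal := by
  intro h1
  apply h
  have := A.asIdeal.mul_mem_left (7 * d) h1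
  convert this using 1
  ring

/-- **the Euler factors** -/
theorem eulZ (h : FK (pE D) S) {j : OO} (hj : D = 1 + 4 * j) {z : ℂ} (hz : z ^ 2 = z - 2)
    {ψ0 : Ideal OO → ℂ} (hψ0 : PsiK 1 D z ψ0) {e : ℤ} (he : e = 1 ∨ e = -1)
    {ψ : Ideal OO → ℂ} (hψ : PsiK e D z ψ) (A : HeightOneSpectrum OO)
    (h14 : 14 * ((e : OO) * D) ∉ A.asIdeal) :
    ((Nat.card {x : (OO ⧸ A.asIdeal) × (OO ⧸ A.asIdeal) //
        ((mK ((e : OO) * D)).map (Ideal.Quotient.mk A.asIdeal)).toAffine.Equation x.1 x.2} : ℕ) : ℂ) =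
      (Nat.card (OO ⧸ A.asIdeal) : ℂ) - (ψ A.asIdeal + (starRingEnd ℂ) (ψ A.asIdeal)) := by
  classical
  have h2 := two_notK h14
  have h7 : 7 * D ∉ A.asIdeal := by
    intro h1
    apply h14
    have := A.asIdeal.mul_mem_left (2 * (e : OO)) h1
    convert this using 1
    ring
  have key := eulK h hj hz hψ0 A h7
  obtain ⟨g, hg⟩ : ∃ g : OO, A.asIdeal = Ideal.span {g} := by
    obtain ⟨g, hg⟩ := (IsPrincipalIdealRing.principal A.asIdeal).principal
    exact ⟨g, hg⟩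
  have hg0 : g ≠ 0 := by
    rintro rfl
    rw [Ideal.span_singleton_zero] at hg
    exact A.ne_bot hg
  have hcard := card_map g
  rw [← hg] at hcard
  have hfin : Finite (OO ⧸ A.asIdeal) := by
    apply Nat.finite_of_card_ne_zero
    have h3 := Pool.Agent.Y698.nR_pos (r := pH g) (fun h0 => hg0 (pH_inj (by rw [h0, map_zero])))
    rw [← hcard] at h3
    omega
  have hmax : A.asIdeal.IsMaximal := A.isPrime.isMaximal A.ne_bot
  letI : Field (OO ⧸ A.asIdeal) := Ideal.Quotient.field _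
  letI : Fintype (OO ⧸ A.asIdeal) := Fintype.ofFinite _
  have hF : ringChar (OO ⧸ A.asIdeal) ≠ 2 := by
    intro h1
    have h3 : ((2 : ℕ) : OO ⧸ A.asIdeal) = 0 := by
      rw [ringChar.spec, h1]
    apply h2
    rw [← Ideal.Quotient.eq_zero_iff_mem]
    rw [map_ofNat]
    exact_mod_cast h3
  have hd : Ideal.Quotient.mk A.asIdeal D = 1 + 4 * Ideal.Quotient.mk A.asIdeal j := by
    rw [hj, map_add, map_mul, map_one, map_ofNat]
  have h5 := cnt_pos (F := OO ⧸ A.asIdeal) hF hd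
  rw [mK_map]
  rcases he with rfl | rfl
  · have hu : ψ A.asIdeal = ψ0 A.asIdeal := by rw [hg, hψ.val, hψ0.val]
    rw [hu, Int.cast_one, one_mul, ← key]
    exact congrArg (fun t : ℕ => (t : ℂ)) h5
  · have hrel := hψ.eq hψ0 g
    rw [← hg] at hrel
    have hN : ((Fintype.card (OO ⧸ A.asIdeal) : ℕ) : ℤ) = nm g := by
      rw [← Nat.card_eq_fintype_card]
      unfold nm
      rw [← nR_pH]
      exact hcard
    have hχ : ZMod.χ₄ ((Fintype.card (OO ⧸ A.asIdeal) : ℕ) : ZMod 4) =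
        ZMod.χ₄ ((nm g : ℤ) : ZMod 4) := by
      rw [← hN, Int.cast_natCast]
    have h8 := cnt_neg (F := OO ⧸ A.asIdeal) hF (Ideal.Quotient.mk A.asIdeal D)
    rw [hχ, h5] at h8
    have h6 := congrArg (fun t : ℤ => (t : ℂ)) h8
    push_cast at h6
    rw [← Nat.card_eq_fintype_card, key] at h6
    rw [hrel, map_mul (starRingEnd ℂ), map_intCast (starRingEnd ℂ)]
    have em : Ideal.Quotient.mk A.asIdeal (((-1 : ℤ) : OO) * D) = -Ideal.Quotient.mk A.asIdeal D := by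
      push_cast
      rw [neg_one_mul, map_neg]
    rw [em]
    have e : ∀ a b c d : ℂ, a - b = c * (b - d - b) → a = b - c * d := fun a b c d h => by
      linear_combination h
    have h9 := e _ _ _ _ h6
    rw [h9]
    push_cast
    ring

end Pool.Agent.N843.K
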