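import Pool.Agent.N843.CK.Fk

/-!
# The elements that satisfy the local conditions, `D ≡ 1` modulo `8` in the ring of integers
-/

set_option autoImplicit false
set_option linter.unusedSectionVars false
set_option linter.unusedSimpArgs false
set_option linter.unusedVariables false

namespace Pool.Agent.N843.K

open Pool.Agent.N843 Pool.Agent.N843.X
open Pool.Agent.Y698 (RR al al_sq aR aR_coe bR bR_coe cX cY co nR mul_cj cj_coe exists_gen e7 fR
  nR_aR nR_bR sp_eq e7_mul e7_neg e7_one fR_ne irr_fR aR_mul_bR)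
open Pool.Agent.Y698.SG (Pe sy gd mc mr inp lg lg_one lg_neg_one lg_mul sgn_prod sy_sgn sy_per)
open Pool.Agent.R426.QD (r4 Ev tp Pn Fa r4_a r4_unit r4_m4 exists_fac sy_mulO sy_oneO)
open Pool.Agent.W192.HK (sp)

variable {Δ : RR} {S : Finset RR}

theorem algK (h : FK Δ S) (hg : gd (mc fun p : RR => p) (mr fun p : RR => p) S ≠ 0)
    {δ : RR} (hδ : Squarefree δ) (h4 : r4 δ = 1)
    (hsup : ∀ π, Prime π → π ∣ δ → π ∣ bR ∨ π ∣ fR ∨ π ∣ Δ)
    (hloc : ∀ p ∈ S, (¬ p ∣ δ ∧ sy p δ = 1) ∨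
      ∃ δ1 m1, δ = p * δ1 ∧ -fR * Δ = p * m1 ∧ sy p (δ1 * m1) = 1)
    (hloc7 : (¬ fR ∣ δ ∧ e7 δ = 1) ∨
      ∃ δ1, δ = -fR * δ1 ∧ e7 (δ1 * Δ) = 1) :
    δ = 1 ∨ δ = -fR * Δ := by
  classical
  obtain ⟨T', hT', hδT⟩ := fac1 hδ h4
  have hbp : Prime bR := Pool.Agent.N843.prime_bR
  have hfp : Prime fR := irr_fR.prime
  have hb2 : bR ∣ 2 := ⟨aR, by rw [mul_comm, aR_mul_bR]⟩
  have hf2 : ¬ fR ∣ 2 := Pool.Agent.R426.QD.two_fR
  set g : RR := -bR with hgd
  set f : RR := -fR with hfd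
  have hgp : Prime g := hbp.neg
  have hffp : Prime f := hfp.neg
  have hsf : sp f = sp fR := Ideal.span_singleton_neg _
  have hpS : ∀ p ∈ S, Prime p ∧ ¬ p ∣ 2 ∧ r4 p = 1 ∧ p ∉ sp fR ∧ fR ∉ sp p := fun p hp =>
    ⟨(h.ev.fa.pn p hp).pr, (h.ev.fa.pn p hp).od, (h.ev.fa.pn p hp).r4, h.ev.c7 p hp⟩
  have hgS : g ∉ S := fun hh => (hpS g hh).2.1 ((neg_dvd).2 hb2)
  have hfS : f ∉ S := by
    intro hh
    apply (hpS f hh).2.2.2.1
    rw [Ideal.mem_span_singleton, hfd, dvd_neg]
  have hgf : g ≠ f := by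
    intro hh
    apply hf2
    have h1 : f ∣ 2 := by
      rw [← hh]
      exact (neg_dvd).2 hb2
    rwa [hfd, neg_dvd] at h1
  have hcase : ∀ k ∈ T', k = g ∨ k = f ∨ k ∈ S := by
    intro k hk
    obtain ⟨h1, h2, h3⟩ := (hT' k).1 hk
    rcases hsup k h1 h2 with h5 | h5 | h5
    · exact Or.inl (eq_of_r4 h1 hgp (by rw [hgd, dvd_neg]; exact h5) h3 r4_nb)
    · exact Or.inr (Or.inl (eq_of_r4 h1 hffp (by rw [hfd, dvd_neg]; exact h5) h3 r4_nf))
    · exact Or.inr (Or.inr ((h.mem k).2 ⟨h1, h5, h3⟩))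
  set T : Finset RR := S.filter (fun k => k ∈ T') with hTd
  have hTS : T ⊆ S := Finset.filter_subset _ _
  have hsplit : ∀ F : RR → ZMod 2, ∑ k ∈ T', F k =
      ∑ k ∈ T, F k + (if g ∈ T' then 1 else 0) * F g + (if f ∈ T' then 1 else 0) * F f := by
    intro F
    have e1 : T' = T ∪ ({g, f} : Finset RR).filter (fun k => k ∈ T') := by
      ext k
      rw [Finset.mem_union, Finset.mem_filter, Finset.mem_filter, Finset.mem_insert,
        Finset.mem_singleton]
      constructor
      · intro hk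
        rcases hcase k hk with h1 | h1 | h1
        · exact Or.inr ⟨Or.inl h1, hk⟩
        · exact Or.inr ⟨Or.inr h1, hk⟩
        · exact Or.inl ⟨h1, hk⟩
      · rintro (h1 | h1)
        · exact h1.2
        · exact h1.2
    have e2 : Disjoint T (({g, f} : Finset RR).filter (fun k => k ∈ T')) := by
      rw [Finset.disjoint_left]
      intro k h1 h2
      rw [Finset.mem_filter] at h1 h2
      rw [Finset.mem_insert, Finset.mem_singleton] at h2
      rcases h2.1 with h3 | h3
      · exact hgS (h3 ▸ h1.1)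
      · exact hfS (h3 ▸ h1.1)
    conv_lhs => rw [e1]
    rw [Finset.sum_union e2, Finset.sum_filter (s := ({g, f} : Finset RR)), Finset.sum_pair hgf,
      add_assoc]
    congr 1
    congr 1
    · split_ifs
      · rw [one_mul]
      · rw [zero_mul]
    · split_ifs
      · rw [one_mul]
      · rw [zero_mul]
  set A : ZMod 2 := if g ∈ T' then 1 else 0 with hA
  set φ : ZMod 2 := if f ∈ T' then 1 else 0 with hφ
  set r : RR → RR → ZMod 2 := fun p k => lg (sy p k) with hr
  set c : RR → ZMod 2 := fun p => lg (e7 p) with hc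
  set t : RR → ZMod 2 := fun p => tp p with ht
  -- divisibility between the primes
  have hnot : ∀ p ∈ S, ∀ k ∈ T', k ≠ p → k ∉ sp p := by
    intro p hp k hk hkp hm
    rw [Ideal.mem_span_singleton] at hm
    obtain ⟨h1, h2, h3⟩ := (hT' k).1 hk
    obtain ⟨g1, g2, g3, -, -⟩ := hpS p hp
    exact hkp (eq_of_r4 g1 h1 hm g3 h3).symm
  have hnotS : ∀ p ∈ S, ∀ k ∈ S, k ≠ p → k ∉ sp p := by
    intro p hp k hk hkp hm
    rw [Ideal.mem_span_singleton] at hm
    obtain ⟨g1, g2, g3, -, -⟩ := hpS p hp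
    obtain ⟨h1, h2, h3, -, -⟩ := hpS k hk
    exact hkp (eq_of_r4 g1 h1 hm g3 h3).symm
  have hγ : ∀ p ∈ S, r p f = t p + c p := by
    intro p hp
    obtain ⟨g1, g2, g3, g4, g5⟩ := hpS p hp
    show lg (sy p (-fR)) = tp p + lg (e7 p)
    rw [Pool.Agent.R426.QD.lg_neg' g1 g2 g5, (h.ev.fa.pn p hp).seven g4 g5]
  have hTmem : ∀ p, p ∈ T ↔ p ∈ S ∧ p ∈ T' := fun p => by rw [hTd, Finset.mem_filter]
  have c1 : ∀ p ∈ S, p ∉ T → A * r p g + φ * (t p + c p) + ∑ k ∈ T, r p k = 0 := by
    intro p hp hpT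
    have hpT' : p ∉ T' := fun hh => hpT ((hTmem p).2 ⟨hp, hh⟩)
    obtain ⟨g1, g2, g3, g4, g5⟩ := hpS p hp
    rcases hloc p hp with ⟨-, h1⟩ | ⟨δ1, m1, h1, -, -⟩
    · have h2 : lg (sy p δ) = 0 := by rw [h1, lg_one]
      rw [hδT, lg_syprod g1 g2 fun k hk => hnot p hp k hk (fun hh => hpT' (hh ▸ hk)),
        hsplit] at h2
      have h3 : ∑ k ∈ T, r p k + A * r p g + φ * r p f = 0 := h2
      rw [hγ p hp] at h3
      linear_combination h3
    · exact absurd ((hT' p).2 ⟨g1, ⟨δ1, h1⟩, g3⟩) hpT'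
  have c2 : ∀ p ∈ T, A * r p g + φ * (t p + c p) + (t p + c p) + ∑ k ∈ S \ T, r p k = 0 := by
    intro p hpT
    obtain ⟨hp, hpT'⟩ := (hTmem p).1 hpT
    obtain ⟨g1, g2, g3, g4, g5⟩ := hpS p hp
    rcases hloc p hp with ⟨h1, -⟩ | ⟨δ1, m1, h1, h2, h3⟩
    · exact absurd ((hT' p).1 hpT').2.1 h1
    · have e1 : δ1 = ∏ k ∈ T'.erase p, k := by
        apply mul_left_cancel₀ g1.ne_zero
        rw [← h1, hδT, Finset.mul_prod_erase T' (fun k => k) hpT']
      have e2 : m1 = f * ∏ k ∈ S.erase p, k := by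
        apply mul_left_cancel₀ g1.ne_zero
        rw [← h2, h.prod, ← Finset.mul_prod_erase S (fun k => k) hp]
        ring
      have n1 : ∀ k ∈ T'.erase p, k ∉ sp p := fun k hk =>
        hnot p hp k (Finset.mem_of_mem_erase hk) (Finset.ne_of_mem_erase hk)
      have n2 : ∀ k ∈ S.erase p, k ∉ sp p := fun k hk =>
        hnotS p hp k (Finset.mem_of_mem_erase hk) (Finset.ne_of_mem_erase hk)
      have n3 : f ∉ sp p := by
        rw [Ideal.mem_span_singleton, hfd, dvd_neg, ← Ideal.mem_span_singleton]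
        exact g5
      have pd : ∀ {T1 : Finset RR}, (∀ k ∈ T1, k ∉ sp p) → ∏ k ∈ T1, k ∉ sp p := by
        intro T1 hT1 hm
        rw [Ideal.mem_span_singleton] at hm
        obtain ⟨k, hk, hpk⟩ := (g1.dvd_finsetProd_iff _).1 hm
        exact hT1 k hk (Ideal.mem_span_singleton.2 hpk)
      have s1 := sy_sgn (pd n1)
      have s2 := sy_sgn (pd n2)
      have s3 := sy_sgn n3
      have h5 : lg (sy p (δ1 * m1)) = 0 := by rw [h3, lg_one]
      rw [e1, e2, sy_mulO g1 g2, sy_mulO g1 g2, lg_mul s1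
        (Pool.Agent.Y698.SG.sgn_mul s3 s2), lg_mul s3 s2, lg_syprod g1 g2 n1,
        lg_syprod g1 g2 n2] at h5
      have h6 : r p f = t p + c p := hγ p hp
      have h7 : ∑ k ∈ T'.erase p, r p k = ∑ k ∈ T.erase p, r p k + A * r p g + φ * r p f := by
        have h8 := hsplit (r p)
        rw [← Finset.add_sum_erase T' (r p) hpT', ← Finset.add_sum_erase T (r p) hpT] at h8
        linear_combination h8
      have h9 : ∑ k ∈ S.erase p, r p k = ∑ k ∈ T.erase p, r p k + ∑ k ∈ S \ T, r p k := by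
        have h10 := sum_sd hTS (r p)
        rw [← Finset.add_sum_erase S (r p) hp, ← Finset.add_sum_erase T (r p) hpT] at h10
        linear_combination h10
      have h11 : ∑ k ∈ T'.erase p, r p k + (r p f + ∑ k ∈ S.erase p, r p k) = 0 := h5
      rw [h7, h9, h6] at h11
      linear_combination h11 - zz (∑ k ∈ T.erase p, r p k)
  have hcg : c g = 1 := by
    show lg (e7 (-bR)) = 1
    rw [e7_neg, e7_bR, lg_neg_one]
  have hbs : ∑ p ∈ S, r p g = 0 := by
    have h1 : ∑ p ∈ S, r p g = lg (∏ p ∈ S, sy p g) := by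
      refine ((sgn_prod fun p hp => sy_sgn ?_).2).symm
      intro hm
      obtain ⟨g1, g2, -, -, -⟩ := hpS p hp
      apply g2
      rw [Ideal.mem_span_singleton] at hm
      exact hm.trans ((neg_dvd).2 hb2)
    rw [h1]
    have h2 := Pool.Agent.R426.QD.prod_sy_neg h.ev.fa h.ev.tp bR
    have h3 := h.cB
    unfold X.ch at h3
    rw [h3] at h2
    show lg (∏ p ∈ S, sy p (-bR)) = 0
    rw [h2, lg_one]
  have hrel : ∀ i ∈ S, ∀ j ∈ S, i ≠ j → r i j + r j i = t i * t j := fun i hi j hj hij =>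
    Pool.Agent.R426.QD.rel_sy h.ev.fa hi hj hij
  have hts : ∑ i ∈ S, t i = 0 := h.ev.tp
  have hg' : gd c (fun i j => r j i) S ≠ 0 := hg
  by_cases hfT : f ∈ T'
  · have hφ1 : φ = 1 := if_pos hfT
    have c3 : A + ∑ k ∈ S \ T, c k = 0 := by
      rcases hloc7 with ⟨h1, -⟩ | ⟨δ1, h1, h2⟩
      · exfalso
        apply h1
        have h3 := ((hT' f).1 hfT).2.1
        rwa [hfd, neg_dvd] at h3
      · have e1 : δ1 = ∏ k ∈ T'.erase f, k := by
          apply mul_left_cancel₀ hffp.ne_zero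
          rw [← h1, hδT, Finset.mul_prod_erase T' (fun k => k) hfT]
        have n1 : ∀ k ∈ T'.erase f, k ∉ sp fR := by
          intro k hk hm
          rw [Ideal.mem_span_singleton] at hm
          obtain ⟨k1, -, k3⟩ := (hT' k).1 (Finset.mem_of_mem_erase hk)
          exact Finset.ne_of_mem_erase hk
            (eq_of_r4 hffp k1 (by rw [hfd, neg_dvd]; exact hm) r4_nf k3).symm
        have n2 : ∀ k ∈ S, k ∉ sp fR := fun k hk => (hpS k hk).2.2.2.1
        have pd : ∀ {T1 : Finset RR}, (∀ k ∈ T1, k ∉ sp fR) → ∏ k ∈ T1, k ∉ sp fR := by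
          intro T1 hT1 hm
          rw [Ideal.mem_span_singleton] at hm
          obtain ⟨k, hk, hpk⟩ := (hfp.dvd_finsetProd_iff _).1 hm
          exact hT1 k hk (Ideal.mem_span_singleton.2 hpk)
        have h5 : lg (e7 (δ1 * Δ)) = 0 := by rw [h2, lg_one]
        rw [e1, h.prod, e7_mul, lg_mul (e7_val (pd n1)) (e7_val (pd n2)), lg_e7prod n1,
          lg_e7prod n2] at h5
        have h6 : ∑ k ∈ T'.erase f, c k + ∑ k ∈ S, c k = 0 := h5
        have h7 : ∑ k ∈ T'.erase f, c k = ∑ k ∈ T, c k + A * c g := by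
          have h8 := hsplit c
          rw [← Finset.add_sum_erase T' c hfT, hφ1] at h8
          linear_combination h8
        have h9 := sum_sd hTS c
        rw [h7, h9, hcg] at h6
        linear_combination h6 - zz (∑ k ∈ T, c k)
    obtain ⟨a0, t0⟩ := linA (S := S) (T := S \ T) (c := c) (t := t) (b := fun p => r p g) (r := r)
      Finset.sdiff_subset hrel hts hbs hg' (a := A)
      (fun p hp hpT => by
        have hpT1 : p ∈ T := by
          by_contra hh
          exact hpT (Finset.mem_sdiff.2 ⟨hp, hh⟩)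
        have h1 := c2 p hpT1
        rw [hφ1] at h1
        linear_combination h1 - zz (t p + c p))
      (fun p hp => by
        obtain ⟨h1, h2⟩ := Finset.mem_sdiff.1 hp
        have h3 := c1 p h1 h2
        rw [Finset.sdiff_sdiff_eq_self hTS]
        rw [hφ1] at h3
        linear_combination h3) c3
    right
    have hgT : g ∉ T' := by
      intro hh
      rw [hA, if_pos hh] at a0
      exact one_ne_zero a0
    have hTe : T' = insert f S := by
      ext k
      rw [Finset.mem_insert]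
      constructor
      · intro hk
        rcases hcase k hk with h1 | h1 | h1
        · exact absurd (h1 ▸ hk) hgT
        · exact Or.inl h1
        · exact Or.inr h1
      · rintro (h1 | h1)
        · rw [h1]
          exact hfT
        · by_contra hh
          have h2 : k ∈ S \ T := Finset.mem_sdiff.2 ⟨h1, fun h3 => hh ((hTmem k).1 h3).2⟩
          rw [t0] at h2
          exact absurd h2 (Finset.notMem_empty _)
    rw [hδT, hTe, Finset.prod_insert hfS, h.prod]
  · have hφ0 : φ = 0 := if_neg hfT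
    have c3 : A + ∑ k ∈ T, c k = 0 := by
      rcases hloc7 with ⟨h0, h1⟩ | ⟨δ1, h1, -⟩
      · have h2 : lg (e7 δ) = 0 := by rw [h1, lg_one]
        have n1 : ∀ k ∈ T', k ∉ sp fR := by
          intro k hk hm
          rw [Ideal.mem_span_singleton] at hm
          exact h0 (hm.trans ((hT' k).1 hk).2.1)
        rw [hδT, lg_e7prod n1] at h2
        have h3 : ∑ k ∈ T', c k = 0 := h2
        rw [hsplit, hφ0, hcg] at h3
        linear_combination h3
      · exfalso
        exact hfT ((hT' f).2 ⟨hffp, ⟨δ1, h1⟩, r4_nf⟩)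
    obtain ⟨a0, t0⟩ := linA (S := S) (T := T) (c := c) (t := t) (b := fun p => r p g) (r := r)
      hTS hrel hts hbs hg' (a := A)
      (fun p hp hpT => by
        have h1 := c1 p hp hpT
        rw [hφ0] at h1
        linear_combination h1)
      (fun p hp => by
        have h3 := c2 p hp
        rw [hφ0] at h3
        linear_combination h3) c3
    left
    have hgT : g ∉ T' := by
      intro hh
      rw [hA, if_pos hh] at a0
      exact one_ne_zero a0
    have hTe : T' = ∅ := by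
      rw [Finset.eq_empty_iff_forall_notMem]
      intro k hk
      rcases hcase k hk with h1 | h1 | h1
      · exact hgT (h1 ▸ hk)
      · exact hfT (h1 ▸ hk)
      · have h2 : k ∈ T := (hTmem k).2 ⟨h1, hk⟩
        rw [t0] at h2
        exact absurd h2 (Finset.notMem_empty _)
    rw [hδT, hTe, Finset.prod_empty]

end Pool.Agent.N843.K
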