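import Pool.Agent.N843.CK.Co
import Pool.Agent.N848.W.KF
import Pool.Agent.N848.W.Den
import Pool.Agent.N27.AW_Sup
import Pool.Agent.N413.CK.Cls
import Pool.Agent.N818.TD.Fct

/-!
# The criterion, and the density in terms of the elements
-/

set_option autoImplicit false
set_option linter.unusedSectionVars false
set_option linter.unusedSimpArgs false
set_option linter.unusedVariables false

open Filter NumberField

namespace Pool.Agent.N843.K

open Pool.Agent.N843 Pool.Agent.N843.X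
open Pool.Agent.R426
open Pool.Agent.Y698 (RR aR bR fR cj)
open Pool.Agent.Y698.SG (gd mc mr)
open Pool.Agent.R384 (OO om s7)
open Pool.Agent.N848.W (NS EC th crit)

open scoped Classical

/-- the class -/
structure C8 (D : OO) : Prop where
  sqf : Squarefree D
  m8 : (8 : OO) ∣ D - 1
  n7 : ¬ s7 ∣ D

lemma sqf_e (e : OO ≃+* RR) (x : OO) : Squarefree (e x) ↔ Squarefree x :=
  Pool.Agent.N848.W.e_sqf e x

lemma c8_iff {D : OO} : CK.Cls1 (pE D) ↔ C8 D := by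
  have h1 : (8 : RR) ∣ pE D - 1 ↔ (8 : OO) ∣ D - 1 := by
    rw [← e_dvd pE, map_sub, map_one, map_ofNat]
  have h2 : fR ∣ pE D ↔ s7 ∣ D := by
    rw [← pE_s7, e_dvd pE]
  unfold CK.Cls1
  rw [sqf_e, h1, h2]
  exact ⟨fun ⟨a, b, c⟩ => ⟨a, b, c⟩, fun h => ⟨h.sqf, h.m8, h.n7⟩⟩

lemma th_pE (D : OO) : th D = pE D := rfl

lemma C8.cls {D : OO} (h : C8 D) : Pool.Agent.N848.W.Cls D :=
  ⟨h.sqf, dvd_trans ⟨2, by norm_num⟩ h.m8, h.n7⟩

/-- the family -/
theorem C8.fk {D : OO} (h : C8 D) : FK (pE D) (QK.PD (pE D)) :=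
  fk_of Pool.Agent.N27.AW.t_SUP Pool.Agent.N413.CK.t_CLS1 (c8_iff.2 h)

lemma FK.uniq {Δ : RR} {S T : Finset RR} (h : FK Δ S) (h' : FK Δ T) : S = T := by
  ext p
  rw [h.mem, h'.mem]

theorem fo_gd {D : OO} (h : C8 D) : FO D ↔ QK.Gd (QK.PD (pE D)) := by
  rw [← gd_iff]
  constructor
  · intro hf
    obtain ⟨S, h1, h2⟩ := hf.fam
    rwa [h1.uniq h.fk] at h2
  · intro hg
    exact ⟨h.sqf, h.m8, h.n7, _, h.fk, hg⟩

/-- **the criterion over `K`** -/
theorem fo_iff {F : Type} [Field F] [NumberField F] {a : F} (ha : a ^ 2 = a - 2)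
    (hF : Module.finrank ℚ F = 2) {D : OO} (hD : C8 D) {d : F}
    (hd : d = (D.re : F) + (D.im : F) * a) : NS (EC d) ↔ FO D := by
  rw [(crit ha hF hD.cls hd).1, fo_gd hD, th_pE]
  unfold QK.GoodE
  rw [and_iff_right]
  exact cls_clsE (c8_iff.2 hD)

/-! ### the factorisations -/

/-- a factorisation -/
def Fac (D : OO) : Prop := ∃ d d' : OO, D = d * d' ∧ om ^ 2 ∣ d - 1 ∧ d ≠ 1 ∧
  (∀ p : OO, Prime p → p ∣ d' → ∃ x : OO, p ∣ x ^ 2 - d) ∧
  ∀ p : OO, Prime p → p ∣ d → ∃ x : OO, p ∣ x ^ 2 + s7 * d'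

theorem fac_iff (D : OO) : Fac D ↔ Pool.Agent.N818.TD.Fct (pE D) := by
  constructor
  · rintro ⟨d, d', h1, h2, h3, h4, h5⟩
    refine ⟨pE d, pE d', by rw [h1, map_mul], ?_, ?_, ?_, ?_⟩
    · have := (e_dvd pE).2 h2
      rwa [map_pow, pE_om, map_sub, map_one] at this
    · intro h
      exact h3 (pE.injective (h.trans (map_one pE).symm))
    · intro p hp hpd
      obtain ⟨p, rfl⟩ := pE.surjective p
      obtain ⟨x, hx⟩ := h4 p ((e_prime pE).1 hp) ((e_dvd pE).1 hpd)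
      refine ⟨pE x, ?_⟩
      have := (e_dvd pE).2 hx
      rwa [map_sub, map_pow] at this
    · intro p hp hpd
      obtain ⟨p, rfl⟩ := pE.surjective p
      obtain ⟨x, hx⟩ := h5 p ((e_prime pE).1 hp) ((e_dvd pE).1 hpd)
      refine ⟨pE x, ?_⟩
      have := (e_dvd pE).2 hx
      rwa [map_add, map_pow, map_mul, pE_s7] at this
  · rintro ⟨d, d', h1, h2, h3, h4, h5⟩
    obtain ⟨d, rfl⟩ := pE.surjective d
    obtain ⟨d', rfl⟩ := pE.surjective d'
    refine ⟨d, d', ?_, ?_, ?_, ?_, ?_⟩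
    · apply pE.injective
      rw [h1, map_mul]
    · rw [← e_dvd pE, map_pow, pE_om, map_sub, map_one]
      exact h2
    · rintro rfl
      exact h3 (map_one _)
    · intro p hp hpd
      obtain ⟨x, hx⟩ := h4 (pE p) ((e_prime pE).2 hp) ((e_dvd pE).2 hpd)
      obtain ⟨x, rfl⟩ := pE.surjective x
      exact ⟨x, (e_dvd pE).1 (by rw [map_sub, map_pow]; exact hx)⟩
    · intro p hp hpd
      obtain ⟨x, hx⟩ := h5 (pE p) ((e_prime pE).2 hp) ((e_dvd pE).2 hpd)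
      obtain ⟨x, rfl⟩ := pE.surjective x
      exact ⟨x, (e_dvd pE).1 (by rw [map_add, map_pow, map_mul, pE_s7]; exact hx)⟩

/-- **the criterion by the factorisations** -/
theorem fo_fac {D : OO} (h : C8 D) : FO D ↔ ¬ Fac D := by
  rw [fo_gd h, ← gd_iff, fac_iff]
  have h1 := Pool.Agent.N818.TD.fct_iff h.fk.ev
  have h2 : ∏ p ∈ QK.PD (pE D), p = pE D := h.fk.prod.symm
  rw [h2] at h1
  exact not_congr h1

/-! ### the density -/

/-- **the density** -/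
theorem denK (hD : CK.S_DEN1) :
    Tendsto (fun X : ℕ => ({D : OO | nm D ≤ X ∧ FO D}.ncard : ℝ) /
      ({D : OO | nm D ≤ X ∧ C8 D}.ncard : ℝ)) atTop (nhds QK.c2) := by
  refine hD.1.congr fun X => ?_
  have e1 : {D : RR | QK.nrm D ≤ X ∧ CK.Cls1 D ∧ QK.Gd (QK.PD D)}.ncard =
      {D : OO | nm D ≤ X ∧ FO D}.ncard := by
    refine (Pool.Agent.N848.W.ncard_th X (P := FO)
      (Q := fun D => CK.Cls1 D ∧ QK.Gd (QK.PD D)) fun D => ?_).symm
    rw [th_pE]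
    constructor
    · intro h
      have h8 : C8 D := ⟨h.sq, h.m8, h.n7⟩
      exact ⟨c8_iff.2 h8, (fo_gd h8).1 h⟩
    · rintro ⟨h1, h2⟩
      exact (fo_gd (c8_iff.1 h1)).2 h2
  have e2 : {D : RR | QK.nrm D ≤ X ∧ CK.Cls1 D}.ncard = {D : OO | nm D ≤ X ∧ C8 D}.ncard :=
    (Pool.Agent.N848.W.ncard_th X (P := C8) (Q := CK.Cls1) fun D => by
      rw [th_pE]
      exact c8_iff.symm).symm
  rw [e1, e2]

/-- the class has positive density -/
theorem lowK (hD : CK.S_DEN1) : ∃ δ : ℝ, 0 < δ ∧ ∀ᶠ X : ℕ in atTop,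
    δ * X ≤ ({D : OO | nm D ≤ X ∧ FO D}.ncard : ℝ) := by
  obtain ⟨c, X₀, hc, h1⟩ := hD.2
  have h2 := denK hD
  have hc2 : (0 : ℝ) < QK.c2 := by
    have := QK.MOM.t_C2.2.2.2.1
    linarith
  have h3 := (tendsto_order.1 h2).1 (QK.c2 / 2) (by linarith)
  refine ⟨c * (QK.c2 / 2), by positivity, ?_⟩
  filter_upwards [h3, eventually_ge_atTop X₀, eventually_ge_atTop 1] with X h4 h5 h6
  have e2 : {D : RR | QK.nrm D ≤ X ∧ CK.Cls1 D}.ncard = {D : OO | nm D ≤ X ∧ C8 D}.ncard :=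
    (Pool.Agent.N848.W.ncard_th X (P := C8) (Q := CK.Cls1) fun D => by
      rw [th_pE]
      exact c8_iff.symm).symm
  have h7 := h1 X h5
  rw [e2] at h7
  have hX : (0 : ℝ) < X := by exact_mod_cast h6
  have h8 : (0 : ℝ) < ({D : OO | nm D ≤ X ∧ C8 D}.ncard : ℝ) :=
    lt_of_lt_of_le (mul_pos hc hX) h7
  rw [lt_div_iff₀ h8] at h4
  nlinarith

end Pool.Agent.N843.K
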