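import Pool.Agent.N843.CK.Stm
import Pool.Agent.N34.AW.LOW

/-!
# CK-LOW: the class `1` modulo `8` has positive density

Port of `Pool/Agent/N34/AW/LOW.lean` (helper34): the elements `n ≡ 1` modulo `8 * fR` are `D * m ^ 2`
with `D` squarefree, and `m ^ 2 ≡ 1` modulo `8`, so that `D` is in the class.
-/

set_option autoImplicit false
set_option linter.unusedVariables false

open scoped Classical

namespace Pool.Agent.N843.CK.LOW

open Finset
open Pool.Agent.Y698 Pool.Agent.Y698.SG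
open Pool.Agent.R426.QK Pool.Agent.R426.QK.LOW
open Pool.Agent.R426
open Pool.Agent.N848.AW (r8 gg hh)
open Pool.Agent.N843.CK
open Pool.Agent.N34.AW.LOW (r8_cast r8_unit r8_sq not_aR_cj f8 r8_prod r8_cj_prod g8 eight_fR two_ne
  eight_fR_ne aR_dvd_2 cjaR_dvd_2 r8_eight)

lemma f8_inj1 : ∀ x : ZMod 2, f8 x = 1 → x = 0 := by decide

/-! ### The elements `1` modulo `8 * fR` -/

/-- the elements `1` modulo `8 * fR` of norm at most `X` -/
noncomputable def T1 (X : ℕ) : Finset RR := (ZB X).filter fun n => 8 * fR ∣ n - 1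

lemma mem_T1 {X : ℕ} {n : RR} : n ∈ T1 X ↔ nrm n ≤ X ∧ 8 * fR ∣ n - 1 := by
  unfold T1
  rw [mem_filter, mem_ZB]

/-- the norm of `1 + 8 * fR * (a + b * aR)` -/
lemma nrm_form1 (a b : ℤ) : (nrm (1 + 8 * fR * mk (a, b)) : ℤ) =
    1 - 56 * b + 448 * (a ^ 2 + a * b + 2 * b ^ 2) := by
  have h8 : (8 : RR) = ((8 : ℤ) : RR) := by norm_num
  have h5 : (1 : RR) = ((1 : ℤ) : RR) := by norm_num
  have e1 : cX (1 + 8 * fR * mk (a, b)) = 1 - 8 * a - 32 * b := by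
    rw [h8, h5, (cXY_add _ _).1, (cXY_mul _ _).1, (cXY_mul _ _).1, (cXY_mul _ _).2, (cXY_int _).1,
      (cXY_int _).1, (cXY_int _).2, cXY_fR.1, cXY_fR.2, (cXY_mk _).1, (cXY_mk _).2]
    ring
  have e2 : cY (1 + 8 * fR * mk (a, b)) = 16 * a + 8 * b := by
    rw [h8, h5, (cXY_add _ _).2, (cXY_mul _ _).2, (cXY_mul _ _).1, (cXY_mul _ _).2, (cXY_int _).1,
      (cXY_int _).2, (cXY_int _).2, cXY_fR.1, cXY_fR.2, (cXY_mk _).1, (cXY_mk _).2]
    ring
  rw [nrm_eq', e1, e2]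
  ring

lemma T1_lower {X : ℕ} (hX : 1 ≤ X) : X ≤ 1817 * (T1 X).card := by
  obtain ⟨B, hB1, hB2⟩ : ∃ B : ℕ, B * B ≤ (X - 1) / 1792 ∧ (X - 1) / 1792 < (B + 1) * (B + 1) :=
    ⟨Nat.sqrt ((X - 1) / 1792), Nat.sqrt_le _, Nat.lt_succ_sqrt _⟩
  have h1 : ((range (B + 1)) ×ˢ (range (B + 1))).card ≤ (T1 X).card := by
    refine card_le_card_of_injOn
      (fun p : ℕ × ℕ => 1 + 8 * fR * mk ((p.1 : ℤ), (p.2 : ℤ))) ?_ ?_
    · intro p hp
      have hp' : p.1 < B + 1 ∧ p.2 < B + 1 := by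
        simpa using hp
      have ha : (p.1 : ℤ) ≤ B := by exact_mod_cast Nat.lt_succ_iff.1 hp'.1
      have hb : (p.2 : ℤ) ≤ B := by exact_mod_cast Nat.lt_succ_iff.1 hp'.2
      have ha0 : (0 : ℤ) ≤ p.1 := Int.natCast_nonneg _
      have hb0 : (0 : ℤ) ≤ p.2 := Int.natCast_nonneg _
      rw [mem_coe, mem_T1]
      refine ⟨?_, ⟨mk ((p.1 : ℤ), (p.2 : ℤ)), by ring⟩⟩
      have h2 := nrm_form1 p.1 p.2
      have h3 : (B * B : ℤ) * 1792 ≤ X - 1 := by
        have : B * B * 1792 ≤ X - 1 := (Nat.le_div_iff_mul_le (by norm_num)).1 hB1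
        have h5 : ((B * B * 1792 : ℕ) : ℤ) ≤ ((X - 1 : ℕ) : ℤ) := by exact_mod_cast this
        rw [Nat.cast_sub hX] at h5
        push_cast at h5
        exact h5
      have h4 : (nrm (1 + 8 * fR * mk ((p.1 : ℤ), (p.2 : ℤ))) : ℤ) ≤ X := by
        rw [h2]
        nlinarith [mul_le_mul ha ha ha0 (ha0.trans ha), mul_le_mul hb hb hb0 (hb0.trans hb),
          mul_le_mul ha hb hb0 (ha0.trans ha)]
      exact_mod_cast h4
    · intro p _ q _ h
      have h2 : (8 * fR) * mk ((p.1 : ℤ), (p.2 : ℤ)) = (8 * fR) * mk ((q.1 : ℤ), (q.2 : ℤ)) :=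
        add_left_cancel h
      have h3 := mk_inj (mul_left_cancel₀ eight_fR_ne h2)
      rw [Prod.mk.injEq] at h3
      exact Prod.ext (by exact_mod_cast h3.1) (by exact_mod_cast h3.2)
  rw [card_product, card_range] at h1
  have h2 : X - 1 < 1792 * ((B + 1) * (B + 1)) := by
    rw [Nat.div_lt_iff_lt_mul (by norm_num)] at hB2
    linarith
  have h4 : 1 ≤ (B + 1) * (B + 1) := Nat.mul_pos (Nat.succ_pos _) (Nat.succ_pos _)
  have h3 : 1817 * ((B + 1) * (B + 1)) ≤ 1817 * (T1 X).card := Nat.mul_le_mul_left _ h1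
  omega

/-- a prime divisor of `8 * fR` does not divide an element `1` modulo `8 * fR` -/
lemma not_dvd1 {p n : RR} (h4 : p ∣ 8 * fR) (h5 : ¬ p ∣ 1) (hn : 8 * fR ∣ n - 1) : ¬ p ∣ n := by
  intro h
  have h1 : p ∣ n - (n - 1) := dvd_sub h (h4.trans hn)
  rw [sub_sub_cancel] at h1
  exact h5 h1

lemma r8_of {n : RR} (hn : 8 * fR ∣ n - 1) : r8 n = 1 ∧ r8 (cj n) = 1 := by
  obtain ⟨c, hc⟩ := hn
  have e1 : n = 1 + 8 * (fR * c) := by linear_combination hc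
  constructor
  · rw [e1, map_add, map_one, r8_eight, add_zero]
  · rw [e1, map_add, map_one cj, map_mul cj, map_add, map_one, map_ofNat cj, r8_eight, add_zero]

/-- the squarefree part of an element of `T1` -/
lemma dec_T1 {n : RR} (hn : 8 * fR ∣ n - 1) : ∃ D m : RR, (PS D ∧ nrm D % 4 = 1 ∧ C1 (PD D)) ∧
    n = D * m ^ 2 ∧ n ≠ 0 := by
  have ha := not_dvd1 ((aR_dvd_2).trans ⟨4 * fR, eight_fR⟩) (fun h => prime_aR.not_isUnit (isUnit_of_dvd_one h)) hn
  have hc := not_dvd1 ((cjaR_dvd_2).trans ⟨4 * fR, eight_fR⟩) (fun h => prime_cjaR.not_isUnit (isUnit_of_dvd_one h)) hn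
  have hf := not_dvd1 (dvd_mul_left _ _) (fun h => QK.prime_fR.not_isUnit (isUnit_of_dvd_one h)) hn
  have hn0 : n ≠ 0 := by
    rintro rfl
    exact ha (dvd_zero _)
  obtain ⟨D, m, hD, hm⟩ := sqf_dec (nrm n) n hn0 le_rfl
  have hDn : D ∣ n := by rw [hm]; exact dvd_mul_right _ _
  have hmn : m ∣ n := by rw [hm, pow_two]; exact (dvd_mul_right m m).mul_left _
  have ham : ¬ aR ∣ m := fun h => ha (h.trans hmn)
  have hcm : ¬ aR ∣ cj m := not_aR_cj fun h => hc (h.trans hmn)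
  obtain ⟨h1, h2⟩ := r8_of hn
  have h3 : r8 D = 1 := by
    rw [hm, map_mul, map_pow, r8_sq ham, mul_one] at h1
    exact h1
  have h4 : r8 (cj D) = 1 := by
    rw [hm, map_mul cj, map_pow cj, map_mul, map_pow, r8_sq hcm, mul_one] at h2
    exact h2
  have c5 : (ZMod.castHom (by norm_num : 4 ∣ 8) (ZMod 4)) (1 : ZMod 8) = 1 := by decide
  have h3' : QD.r4 D = 1 := by rw [← r8_cast, h3, c5]
  have h4' : QD.r4 (cj D) = 1 := by rw [← r8_cast, h4, c5]
  have hPS : PS D := ⟨⟨h3', fun h => hc (h.trans hDn), fun h => hf (h.trans hDn)⟩, hD⟩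
  have hPq : ∀ π ∈ QK.PD D, Pq π := fun π hπ => ((mem_PD hPS.ne).1 hπ).1
  refine ⟨D, m, ⟨hPS, ?_, ?_, ?_⟩, hm, hn0⟩
  · have h5 : QD.r4 (D * cj D) = 1 := by rw [map_mul, h3', h4', mul_one]
    rw [mul_cj, ← nrm_cast, map_intCast] at h5
    have h6 : ((nrm D : ℕ) : ZMod 4) = ((1 : ℕ) : ZMod 4) := by
      push_cast at h5 ⊢
      exact h5
    have h7 := (ZMod.natCast_eq_natCast_iff _ _ _).1 h6
    exact h7
  · apply f8_inj1
    rw [← r8_prod hPq, hPS.prod, h3]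
  · rw [(r8_cj_prod hPq).2, hPS.prod, h4]
    decide

/-- the chosen squarefree part -/
noncomputable def dD (n : RR) : RR := if h : 8 * fR ∣ n - 1 then (dec_T1 h).choose else 1

/-- the chosen square root of the square part -/
noncomputable def dm (n : RR) : RR := if h : 8 * fR ∣ n - 1 then (dec_T1 h).choose_spec.choose else 1

lemma d_spec {n : RR} (h : 8 * fR ∣ n - 1) : (PS (dD n) ∧ nrm (dD n) % 4 = 1 ∧ C1 (PD (dD n))) ∧
    n = dD n * dm n ^ 2 ∧ n ≠ 0 := by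
  unfold dD dm
  rw [dif_pos h, dif_pos h]
  exact (dec_T1 h).choose_spec.choose_spec

lemma card_small (X L : ℕ) : ((T1 X).filter fun n => nrm (dm n) ≤ L).card ≤
    (ZB L).card * (S1 X).card := by
  rw [← card_product]
  refine card_le_card_of_injOn (fun n => (dm n, PD (dD n))) ?_ ?_
  · intro n hn
    rw [mem_coe, mem_filter, mem_T1] at hn
    obtain ⟨⟨h1, h2, h5⟩, h3, h4⟩ := d_spec hn.1.2
    rw [mem_coe, mem_product, mem_ZB]
    refine ⟨hn.2, ?_⟩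
    unfold S1
    rw [mem_filter]
    refine ⟨PD_mem h1 h2 ?_, h5⟩
    refine (norm_le_of_dvd h4 ?_).trans hn.1.1
    exact ⟨_, h3⟩
  · intro n hn n' hn' h
    rw [mem_coe, mem_filter, mem_T1] at hn hn'
    obtain ⟨⟨h1, h2, h5⟩, h3, h4⟩ := d_spec hn.1.2
    obtain ⟨⟨k1, k2, k5⟩, k3, k4⟩ := d_spec hn'.1.2
    rw [Prod.mk.injEq] at h
    rw [h3, k3, ← h1.prod, ← k1.prod, h.1, h.2]

lemma card_big {X L : ℕ} (hL : 1 ≤ L) : (((T1 X).filter fun n => ¬ nrm (dm n) ≤ L).card : ℝ) ≤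
    16 * X * (64 / L) := by
  have h1 : ((T1 X).filter fun n => ¬ nrm (dm n) ≤ L).card ≤
      (((ZB X \ ZB L).filter fun m => 1 ≤ X / nrm m ^ 2).sigma fun m => ZB (X / nrm m ^ 2)).card := by
    refine card_le_card_of_injOn (fun n => ⟨dm n, dD n⟩) ?_ ?_
    · intro n hn
      rw [mem_coe, mem_filter, mem_T1] at hn
      obtain ⟨⟨h1, h2, -⟩, h3, h4⟩ := d_spec hn.1.2
      have h5 : nrm n = nrm (dD n) * nrm (dm n) ^ 2 := by
        conv_lhs => rw [h3]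
        rw [nrm_mul, pow_two, nrm_mul, pow_two]
      have hm0 : dm n ≠ 0 := by
        intro h0
        rw [h0] at h3
        exact h4 (by rw [h3]; ring)
      have hm1 := nrm_pos' hm0
      have hD1 := nrm_pos' h1.ne
      have h6 : nrm (dD n) * nrm (dm n) ^ 2 ≤ X := by rw [← h5]; exact hn.1.1
      have h7 : nrm (dD n) ≤ X / nrm (dm n) ^ 2 :=
        (Nat.le_div_iff_mul_le (by positivity)).2 h6
      rw [mem_coe, mem_sigma, mem_filter, mem_sdiff, mem_ZB, mem_ZB, mem_ZB]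
      refine ⟨⟨⟨?_, hn.2⟩, ?_⟩, h7⟩
      · calc nrm (dm n) ≤ nrm (dm n) ^ 2 := Nat.le_self_pow (by norm_num) _
          _ ≤ nrm (dD n) * nrm (dm n) ^ 2 := Nat.le_mul_of_pos_left _ hD1
          _ ≤ X := h6
      · show 1 ≤ X / nrm (dm n) ^ 2
        omega
    · intro n hn n' hn' h
      rw [mem_coe, mem_filter, mem_T1] at hn hn'
      obtain ⟨⟨h1, h2, -⟩, h3, h4⟩ := d_spec hn.1.2
      obtain ⟨⟨k1, k2, -⟩, k3, k4⟩ := d_spec hn'.1.2
      have e1 : dm n = dm n' := congrArg Sigma.fst h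
      have e2 : dD n = dD n' := by
        have := (Sigma.mk.inj_iff.1 h).2
        exact eq_of_heq this
      rw [h3, k3, e1, e2]
  rw [card_sigma] at h1
  have h2 : (((T1 X).filter fun n => ¬ nrm (dm n) ≤ L).card : ℝ) ≤
      ∑ m ∈ (ZB X \ ZB L).filter (fun m => 1 ≤ X / nrm m ^ 2), ((ZB (X / nrm m ^ 2)).card : ℝ) := by
    exact_mod_cast h1
  refine h2.trans ?_
  calc ∑ m ∈ (ZB X \ ZB L).filter (fun m => 1 ≤ X / nrm m ^ 2), ((ZB (X / nrm m ^ 2)).card : ℝ)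
      ≤ ∑ m ∈ (ZB X \ ZB L).filter (fun m => 1 ≤ X / nrm m ^ 2), 16 * X * (1 / (nrm m : ℝ) ^ 2) := by
        refine sum_le_sum fun m hm => ?_
        rw [mem_filter] at hm
        refine (card_ZB_le hm.2).trans ?_
        have h3 : ((X / nrm m ^ 2 : ℕ) : ℝ) ≤ (X : ℝ) / (nrm m : ℝ) ^ 2 := by
          have := @Nat.cast_div_le ℝ _ _ _ X (nrm m ^ 2)
          push_cast at this
          exact this
        calc 16 * ((X / nrm m ^ 2 : ℕ) : ℝ) ≤ 16 * ((X : ℝ) / (nrm m : ℝ) ^ 2) := by linarith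
          _ = _ := by ring
    _ ≤ ∑ m ∈ ZB X \ ZB L, 16 * X * (1 / (nrm m : ℝ) ^ 2) :=
        sum_le_sum_of_subset_of_nonneg (filter_subset _ _) fun _ _ _ => by positivity
    _ = 16 * X * ∑ m ∈ ZB X \ ZB L, 1 / (nrm m : ℝ) ^ 2 := by rw [mul_sum]
    _ ≤ 16 * X * (64 / L) := mul_le_mul_of_nonneg_left (tail' hL X) (by positivity)

/-- **CK-LOW** -/
theorem t_LOW1 : S_LOW1 := by
  obtain ⟨L, hL⟩ : ∃ L : ℕ, L = 1024 * 3634 := ⟨_, rfl⟩
  have hL1 : 1 ≤ L := by rw [hL]; norm_num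
  have hZ : 0 < (ZB L).card := by
    rw [card_pos]
    exact ⟨1, mem_ZB.2 (by rw [nrm_one]; exact hL1)⟩
  have hZ' : (0 : ℝ) < (ZB L).card := by exact_mod_cast hZ
  refine ⟨1 / (3634 * (ZB L).card), 1, by positivity, fun X hX => ?_⟩
  have h1 : (X : ℝ) ≤ 1817 * (T1 X).card := by exact_mod_cast T1_lower hX
  have h2 : ((T1 X).card : ℝ) = (((T1 X).filter fun n => nrm (dm n) ≤ L).card : ℝ) +
      (((T1 X).filter fun n => ¬ nrm (dm n) ≤ L).card : ℝ) := by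
    exact_mod_cast (card_filter_add_card_filter_not (s := T1 X) (fun n => nrm (dm n) ≤ L)).symm
  have h3 : (((T1 X).filter fun n => nrm (dm n) ≤ L).card : ℝ) ≤
      (ZB L).card * (S1 X).card := by exact_mod_cast card_small X L
  have h4 := card_big (X := X) hL1
  have h5 : (16 * X * (64 / L) : ℝ) = X / 3634 := by
    rw [hL]
    push_cast
    ring
  rw [h5] at h4
  have h6 : (X : ℝ) ≤ 3634 * ((ZB L).card * (S1 X).card) := by linarith
  calc 1 / (3634 * ((ZB L).card : ℝ)) * X ≤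
      1 / (3634 * ((ZB L).card : ℝ)) * (3634 * ((ZB L).card * (S1 X).card)) :=
        mul_le_mul_of_nonneg_left h6 (by positivity)
    _ = (S1 X).card := by
      field_simp

end Pool.Agent.N843.CK.LOW
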