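import Pool.Agent.R426.QK.Fin
import Pool.Agent.N413.CK.Cls
import Pool.Agent.N594.CK.Asy
import Pool.Agent.N843.CK.Key
import Pool.Agent.N843.CK.Low

/-!
# Project CK (helper843): the density of the class `D ≡ 1` modulo `8`

Assembly of the analytic part: the pieces of project QK (starting library, `Pool/Agent/R426/QK`), the
box (`Box`), the boxes (`Key`), the class (`Pool/Agent/N413/CK/Cls`, helper413), the asymptotics
(`Pool/Agent/N594/CK/Asy`, helper594).
-/

set_option autoImplicit false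

namespace Pool.Agent.N843.CK

open Pool.Agent.R426.QK

theorem t_DEN1 : S_DEN1 :=
  Pool.Agent.N413.CK.t_NS1 Pool.Agent.N413.CK.t_CLS1
    (Pool.Agent.N594.CK.t_ASY1 recP t_BIL EQ.t_EQ t_LA BOX.t_BOX1 KEY.t_KEY1 CNT.t_CNT
      (FB.t_BAD recP t_HALL t_MERT) (FB.t_FEW t_HALL t_MERT) LOW.t_LOW1 MOM.t_C2) LOW.t_LOW1

end Pool.Agent.N843.CK
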