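import Pool.Agent.N843.Ek
import Pool.Agent.N843.Yb
import Pool.Agent.N843.CK.Stm
import Pool.Agent.R426.QK.Tr

/-!
# The families of the prime divisors of the `D ≡ 1` modulo `8` in the ring of integers
-/

set_option autoImplicit false
set_option linter.unusedSectionVars false
set_option linter.unusedSimpArgs false
set_option linter.unusedVariables false

namespace Pool.Agent.N843.K

open Pool.Agent.N843
open Pool.Agent.Y698 (RR al al_sq aR aR_coe bR bR_coe cX cY co nR mul_cj cj cj_coe cj_cj exists_gen e7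
  fR nR_aR nR_bR sp_eq e7_mul e7_neg e7_one fR_ne irr_fR)
open Pool.Agent.Y698.SG (Pe sy gd mc mr inp lg lg_one lg_neg_one lg_mul sgn_prod sy_sgn sy_per)
open Pool.Agent.R426.QD (r4 Ev tp Pn Fa r4_a r4_unit r4_m4 exists_fac sy_mulO sy_oneO cf gd_cf
  pn_cf nb_or sy_nb sp_nb nb_mem mem_cj nb_dvd prod_nb' ev_fac)
open Pool.Agent.W192.HK (sp)
open Pool.Agent.R426 (QK.PD QK.mem_PD QK.Pq QK.pq_of)
open Pool.Agent.Y279.SG (sy_cj)

/-- the family of the prime divisors of `Δ` -/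
structure FK (Δ : RR) (S : Finset RR) : Prop where
  mem : ∀ p, p ∈ S ↔ Prime p ∧ p ∣ Δ ∧ r4 p = 1
  prod : Δ = ∏ p ∈ S, p
  ev : Ev S (fun p => p)
  cA : X.ch (fun p : RR => p) S aR = 1
  cB : X.ch (fun p : RR => p) S bR = 1

lemma cls_clsE {Δ : RR} (h : CK.Cls1 Δ) : Pool.Agent.R426.QK.ClsE Δ := by
  refine ⟨h.1, dvd_trans ?_ h.2.1, h.2.2⟩
  exact ⟨2, by norm_num⟩

lemma cls_mem {Δ : RR} (h : CK.Cls1 Δ) (p : RR) :
    p ∈ Pool.Agent.R426.QK.PD Δ ↔ Prime p ∧ p ∣ Δ ∧ r4 p = 1 := by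
  have hE := cls_clsE h
  rw [Pool.Agent.R426.QK.mem_PD hE.ps.ne]
  exact ⟨fun h1 => ⟨h1.1.prime, h1.2, h1.1.prm.r4⟩,
    fun h1 => ⟨Pool.Agent.R426.QK.pq_of hE.prm h1.1 h1.2.1 h1.2.2, h1.2.1⟩⟩

lemma bR_cj : bR = cj aR := by
  rw [Pool.Agent.R426.QC.cj_aR]
  rfl

/-- the family of the prime divisors -/
theorem fk_of (hSUP : Pool.Agent.N848.AW.S_SUP) (hCLS : CK.S_CLS1) {Δ : RR} (h : CK.Cls1 Δ) :
    FK Δ (Pool.Agent.R426.QK.PD Δ) := by
  have hE := cls_clsE h
  obtain ⟨h1, h2, h3, h4⟩ := hCLS.1 Δ h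
  have hmem := cls_mem h
  have hx4 : ∃ J : RR, Δ = 1 + 4 * J := by
    obtain ⟨c, hc⟩ := hE.2.1
    exact ⟨c, by linear_combination hc⟩
  have hev : Ev (Pool.Agent.R426.QK.PD Δ) (fun p => p) :=
    ev_fac hx4 h.2.2 hmem (fun p hp => hp) (fun p _ q _ h => h) h2
  have hsg : ∀ x : RR, (∀ p ∈ Pool.Agent.R426.QK.PD Δ, x ∉ sp p) →
      ∑ p ∈ Pool.Agent.R426.QK.PD Δ, lg (sy p (-x)) = 0 →
      X.ch (fun p : RR => p) (Pool.Agent.R426.QK.PD Δ) x = 1 := by
    intro x hx h0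
    have h5 := sgn_prod (s := Pool.Agent.R426.QK.PD Δ) (f := fun p => sy p (-x)) fun p hp =>
      sy_sgn fun h6 => hx p hp ((Ideal.neg_mem_iff _).1 h6)
    rw [h0, Pool.Agent.R426.QD.prod_sy_neg hev.fa hev.tp x] at h5
    unfold X.ch
    rcases h5.1 with h6 | h6
    · exact h6
    · rw [h6, lg_neg_one] at h5
      exact absurd h5.2 one_ne_zero
  have hab : aR * bR = 2 := Pool.Agent.Y698.aR_mul_bR
  refine ⟨hmem, h2.symm, hev, hsg _ (fun p hp h5 => ?_) ?_, hsg _ (fun p hp h5 => ?_) ?_⟩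
  · apply (hev.fa.pn p hp).od
    rw [← hab]
    exact (Ideal.mem_span_singleton.1 h5).mul_right _
  · rw [← h4.1]
    exact Finset.sum_congr rfl fun p hp => (hSUP p (h1 p hp)).2.1
  · apply (hev.fa.pn p hp).od
    rw [← hab]
    exact (Ideal.mem_span_singleton.1 h5).mul_left _
  · rw [← h4.2, bR_cj]
    exact Finset.sum_congr rfl fun p hp => (hSUP p (h1 p hp)).2.2

/-! ### the conjugate family -/

lemma cf_inj {S : Finset RR} (h : Ev S (fun p => p)) : Set.InjOn cf (S : Set RR) := by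
  intro p hp q hq hpq
  have h1 := h.cf.fa
  by_contra hne
  have h2 := h1.ne p hp q hq hne
  apply h2
  show cf p ∈ sp (cf q)
  rw [hpq]
  exact Ideal.mem_span_singleton_self _

lemma ev_image {S : Finset RR} {f : RR → RR} (hf : Set.InjOn f (S : Set RR)) (h : Ev S f) :
    Ev (S.image f) (fun p => p) := by
  classical
  refine ⟨⟨fun p hp => ?_, fun p hp q hq hpq => ?_⟩, fun p hp => ?_, ?_, ?_⟩
  · obtain ⟨i, hi, rfl⟩ := Finset.mem_image.1 hp
    exact h.fa.pn i hi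
  · obtain ⟨i, hi, rfl⟩ := Finset.mem_image.1 hp
    obtain ⟨j, hj, rfl⟩ := Finset.mem_image.1 hq
    exact h.fa.ne i hi j hj fun hij => hpq (by rw [hij])
  · obtain ⟨i, hi, rfl⟩ := Finset.mem_image.1 hp
    exact h.c7 i hi
  · rw [Finset.sum_image hf]
    exact h.tp
  · obtain ⟨J, hJ⟩ := h.m4
    exact ⟨J, by rw [Finset.prod_image hf]; exact hJ⟩

lemma ch_image {S : Finset RR} {f : RR → RR} (hf : Set.InjOn f (S : Set RR)) (x : RR) :
    X.ch (fun p : RR => p) (S.image f) x = X.ch f S x := by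
  unfold X.ch
  rw [Finset.prod_image hf]

lemma gd_image {S : Finset RR} {f : RR → RR} (hf : Set.InjOn f (S : Set RR)) :
    gd (mc fun p : RR => p) (mr fun p : RR => p) (S.image f) = gd (mc f) (mr f) S := by
  classical
  apply Pool.Agent.R426.QD.gd_eq_of
  constructor
  · rintro ⟨x, h1, v, hv, h2⟩
    obtain ⟨i, hi, rfl⟩ := Finset.mem_image.1 hv
    refine ⟨fun i => x (f i), fun j hj => ?_, i, hi, h2⟩
    have h3 := h1 (f j) (Finset.mem_image_of_mem f hj)
    rw [Finset.sum_image hf] at h3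
    exact h3
  · rintro ⟨x, h1, i, hi, h2⟩
    have hl : ∀ j ∈ S, Function.invFunOn f (S : Set RR) (f j) = j := fun j hj =>
      hf.leftInvOn_invFunOn hj
    refine ⟨fun p => x (Function.invFunOn f (S : Set RR) p), fun p hp => ?_, f i,
      Finset.mem_image_of_mem f hi, ?_⟩
    · obtain ⟨j, hj, rfl⟩ := Finset.mem_image.1 hp
      rw [Finset.sum_image hf]
      have h3 := h1 j hj
      rw [← h3]
      congr 1
      · show mc (fun p : RR => p) (f j) * x (Function.invFunOn f (S : Set RR) (f j)) = _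
        rw [hl j hj]
        rfl
      · refine Finset.sum_congr rfl fun k hk => ?_
        show mr (fun p : RR => p) (f j) (f k) * (x (Function.invFunOn f (S : Set RR) (f j)) +
          x (Function.invFunOn f (S : Set RR) (f k))) = _
        rw [hl j hj, hl k hk]
        rfl
    · show x (Function.invFunOn f (S : Set RR) (f i)) ≠ 0
      rwa [hl i hi]

/-- the family of the conjugate element -/
theorem FK.cj {Δ : RR} {S : Finset RR} (h : FK Δ S) :
    FK (Pool.Agent.Y698.cj Δ) (S.image cf) := by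
  classical
  have hinj := cf_inj h.ev
  have hev := ev_image hinj h.ev.cf
  have hcj2 : ∀ x : RR, cf x = Pool.Agent.Y698.cj (Pool.Agent.R426.QD.nb x) := fun x => rfl
  have hchar : ∀ x : RR, X.ch cf S (Pool.Agent.Y698.cj x) = X.ch (fun p : RR => p) S x := by
    intro x
    unfold X.ch
    refine Finset.prod_congr rfl fun p hp => ?_
    rw [hcj2, sy_cj, sy_nb]
  refine ⟨fun p => ⟨fun hp => ?_, fun hp => ?_⟩, ?_, hev, ?_, ?_⟩
  · obtain ⟨q, hq, rfl⟩ := Finset.mem_image.1 hp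
    have h1 := pn_cf (h.ev.fa.pn q hq)
    refine ⟨h1.pr, ?_, h1.r4⟩
    rw [hcj2]
    have h2 : Pool.Agent.R426.QD.nb q ∣ Δ := nb_dvd.2 ((h.mem q).1 hq).2.1
    exact map_dvd Pool.Agent.Y698.cj h2
  · obtain ⟨h1, h2, h3⟩ := hp
    have h4 : Pool.Agent.Y698.cj p ∣ ∏ q ∈ S, q := by
      rw [← h.prod]
      have := map_dvd Pool.Agent.Y698.cj h2
      rwa [cj_cj] at this
    have hpc := Pool.Agent.R426.QD.pr_cj h1
    obtain ⟨q, hq, h5⟩ := (hpc.dvd_finsetProd_iff _).1 h4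
    have h6 : p ∣ cf q := by
      rw [hcj2]
      have h7 : Pool.Agent.Y698.cj p ∣ Pool.Agent.R426.QD.nb q := by
        rcases nb_or q with h8 | h8 <;> rw [h8]
        · exact h5
        · exact (dvd_neg).2 h5
      have := map_dvd Pool.Agent.Y698.cj h7
      rwa [cj_cj] at this
    have h8 := pn_cf (h.ev.fa.pn q hq)
    rw [X.eq_of_r4 h1 h8.pr h6 h3 h8.r4]
    exact Finset.mem_image_of_mem _ hq
  · rw [Finset.prod_image hinj]
    have h1 : ∏ i ∈ S, cf i = Pool.Agent.Y698.cj (∏ i ∈ S, Pool.Agent.R426.QD.nb i) :=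
      (map_prod Pool.Agent.Y698.cj _ _).symm
    rw [h1, prod_nb' h.ev, ← h.prod]
  · rw [ch_image hinj]
    have h1 : aR = Pool.Agent.Y698.cj bR := by rw [bR_cj, cj_cj]
    conv_lhs => rw [h1]
    rw [hchar, h.cB]
  · rw [ch_image hinj, bR_cj, hchar, h.cA]

/-- the determinant of the conjugate family -/
theorem FK.gd_cj {Δ : RR} {S : Finset RR} (h : FK Δ S)
    (hg : gd (mc fun p : RR => p) (mr fun p : RR => p) S ≠ 0) :
    gd (mc fun p : RR => p) (mr fun p : RR => p) (S.image cf) ≠ 0 := by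
  rw [gd_image (cf_inj h.ev)]
  have h1 := gd_cf h.ev
  rw [← h1] at hg
  exact hg

/-- the determinant and the kernel -/
theorem gd_iff {Δ : RR} :
    gd (mc fun p : RR => p) (mr fun p : RR => p) (Pool.Agent.R426.QK.PD Δ) ≠ 0 ↔
      Pool.Agent.R426.QK.Gd (Pool.Agent.R426.QK.PD Δ) := by
  rw [Ne, Pool.Agent.R426.QD.gd_zero_iff]
  unfold Pool.Agent.R426.QD.Kr Pool.Agent.R426.QK.Gd Pool.Agent.R426.QK.Sol
  constructor
  · intro h v hv π hπ
    by_contra h1
    exact h ⟨v, hv, π, hπ, h1⟩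
  · rintro h ⟨v, hv, π, hπ, h1⟩
    exact h1 (h v hv π hπ)

end Pool.Agent.N843.K
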