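import Pool.Agent.N843.CK.Cr
import Pool.Agent.N843.Em

/-!
# The two sides for the curves over `K`: the transfer to the definitions of the hand-in
-/

set_option autoImplicit false
set_option linter.unusedSectionVars false
set_option linter.unusedSimpArgs false
set_option linter.unusedVariables false

namespace Pool.Agent.N843.K

open Pool.Agent.N843 Pool.Agent.N843.X
open Pool.Agent.R384 (OO om s7 em KD em_ne prime_s7)
open Pool.Agent.Results.MP_787500_nt.AllWeightsMultiquadraticX49 (QBar OK emb ED Gal Sub Chr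
  TateModule chi GalL K gen Iso SelmerZero galL_eq selmer_of elliptic gen_sq curve)
open Pool.Agent.N848.W (EC)

/-- the pairs -/
def GpK (e : ℤ) (M : OO) {n : ℕ} (d : Fin n → OO) : Prop := ∀ T : Finset (Fin n), ∃ D k : OO,
  k ≠ 0 ∧ FO D ∧ (e : OO) * M * ∏ i ∈ T, d i = D * k ^ 2

/-- the element `-√-7 D` -/
def twK (D : OO) : OO := -(s7 * D)

lemma twK_ne {D : OO} (hD : D ≠ 0) : twK D ≠ 0 := neg_ne_zero.2 (mul_ne_zero prime_s7.ne_zero hD)

lemma e_sq {e : ℤ} (he : e = 1 ∨ e = -1) : ((e : ℤ) : OO) * e = 1 := by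
  rcases he with rfl | rfl
  · push_cast; ring
  · push_cast; ring

lemma e_ne {e : ℤ} (he : e = 1 ∨ e = -1) : ((e : ℤ) : OO) ≠ 0 := by
  intro h
  have h1 := e_sq he
  rw [h, mul_zero] at h1
  exact zero_ne_one h1

lemma gpK_ne {e : ℤ} {M : OO} {n : ℕ} {d : Fin n → OO} (hG : GpK e M d) :
    M ≠ 0 ∧ ∀ i, d i ≠ 0 := by
  constructor
  · obtain ⟨D, k, hk, hD, he⟩ := hG ∅
    rw [Finset.prod_empty, mul_one] at he
    exact right_ne_zero_of_mul (he ▸ mul_ne_zero hD.sq.ne_zero (pow_ne_zero 2 hk))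
  · intro i
    obtain ⟨D, k, hk, hD, he⟩ := hG {i}
    rw [Finset.prod_singleton] at he
    exact right_ne_zero_of_mul (he ▸ mul_ne_zero hD.sq.ne_zero (pow_ne_zero 2 hk))

lemma gpK_good {e : ℤ} (he : e = 1 ∨ e = -1) {M : OO} {n : ℕ} {d : Fin n → OO} (hG : GpK e M d)
    (T : Finset (Fin n)) : ∃ P z : OO, FO P ∧ z ≠ 0 ∧
      twK M * ∏ i ∈ T, d i = -(s7 * ((e : OO) * P)) * z ^ 2 := by
  obtain ⟨D, k, hk, hD, h1⟩ := hG T
  refine ⟨D, k, hD, hk, ?_⟩
  have h2 := e_sq he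
  unfold twK
  linear_combination (-s7 * (e : OO)) * h1 + (s7 * M * ∏ i ∈ T, d i) * h2

/-- **the Selmer groups are zero** -/
theorem selK {w : QBar} (hw : w ^ 2 = w - 2) {e : ℤ} (he : e = 1 ∨ e = -1) {M : OO} {n : ℕ}
    {d : Fin n → OO} (hG : GpK e M d) {κ κ' : Chr w} {r I : QBar}
    (kd : KD hw κ κ' (twK M) r I) {s : Fin n → QBar} (hs : ∀ i, s i ^ 2 = em hw (d i))
    {k : ℤ} (hk : Sg e k) :
    SelmerZero (1 - w) (GalL w s) (chi κ κ' k) ∧ SelmerZero w (GalL w s) (chi κ κ' (1 - k)) := by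
  obtain ⟨hM0, hd0⟩ := gpK_ne hG
  rw [galL_eq]
  have h1 : Sg e (1 - (1 - k)) := by rwa [sub_sub_cancel]
  exact ⟨selmer_of hw (vanMq hw hs kd (twK_ne hM0) hd0 (gpK_good he hG) k (Or.inr ⟨hk, rfl, rfl⟩))
      (Pool.Agent.Kdt384.em_om' hw),
    selmer_of hw (vanMq hw hs kd (twK_ne hM0) hd0 (gpK_good he hG) (1 - k)
      (Or.inl ⟨h1, rfl, rfl⟩)) (Pool.Agent.Kdt384.em_om hw)⟩

/-- **the characters are not trivial** -/
theorem fixK {w : QBar} (hw : w ^ 2 = w - 2) {e : ℤ} (he : e = 1 ∨ e = -1) {M : OO} {n : ℕ}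
    {d : Fin n → OO} (hG : GpK e M d) {κ κ' : Chr w} {r I : QBar}
    (kd : KD hw κ κ' (twK M) r I) {s : Fin n → QBar} (hs : ∀ i, s i ^ 2 = em hw (d i)) (j : ℤ) :
    ∃ σ ∈ GalL w s, chi κ κ' j σ ≠ 1 := by
  obtain ⟨σ, h1, h2⟩ := exists_fixK hw hs kd he (gpK_good he hG) j
  refine ⟨σ, ?_, ?_⟩
  · rw [galL_eq]
    exact fun i _ => h1 i
  · unfold chi
    rw [h2]
    intro h3
    have h4 : ((1 : ℤ_[2]ˣ) : ℤ_[2]) = ((-1 : ℤ_[2]ˣ) : ℤ_[2]) := (congrArg Units.val h3).symm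
    rw [Units.val_neg, Units.val_one] at h4
    have h5 : (2 : ℤ_[2]) = 0 := by linear_combination h4
    exact two_ne_zero h5

/-! ### the isomorphisms -/

lemma emb_em {L : Type} [CommRing L] {g : L} (hg : g ^ 2 = g - 2) (z : OO) :
    emb g z = em hg z := by
  rw [Pool.Agent.R384.em_apply]
  rfl

lemma em_s7' {L : Type} [CommRing L] {g : L} (hg : g ^ 2 = g - 2) : em hg s7 = 2 * g - 1 := by
  rw [Pool.Agent.R384.em_apply]
  show ((-1 : ℤ) : L) + ((2 : ℤ) : L) * g = _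
  push_cast
  ring

lemma emb_tw {L : Type} [CommRing L] {g : L} (hg : g ^ 2 = g - 2) (D : OO) :
    emb g (twK D) = emb g D - 2 * emb g D * g := by
  rw [emb_em hg, emb_em hg]
  unfold twK
  rw [map_neg, map_mul, em_s7' hg]
  ring

lemma long_iso {F : Type} [Field F] [CharZero F] {g d : F} (hg : g ^ 2 = g - 2) :
    (⟨Units.mk0 (1 / 2 : F) (by norm_num), -((g + 2) * d / 4), -(1 / 2), (g + 2) * d / 8⟩ :
      WeierstrassCurve.VariableChange F) • (EC d) =
      ⟨0, 3 * (1 - g) * (d - 2 * d * g), 0, g ^ 4 * (d - 2 * d * g) ^ 2, 0⟩ := by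
  unfold EC
  have hu : (((Units.mk0 (1 / 2 : F) (by norm_num))⁻¹ : Fˣ) : F) = 2 := by
    simp
  ext
  · simp only [WeierstrassCurve.variableChange_a₁, hu]
    norm_num
  · simp only [WeierstrassCurve.variableChange_a₂, hu]
    linear_combination (-6 * d) * hg
  · simp only [WeierstrassCurve.variableChange_a₃, hu]
    ring
  · simp only [WeierstrassCurve.variableChange_a₄, hu]
    linear_combination ((-4 * g ^ 4 + 7 * g ^ 2 + 7 * g - 4) * d ^ 2) * hg
  · simp only [WeierstrassCurve.variableChange_a₆, hu]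
    linear_combination ((-g - 10) * d ^ 3) * hg

theorem isoL {w : QBar} (hw : w ^ 2 = w - 2) (D : OO) :
    Iso (EC (emb (gen w) D)) (ED w (twK D)) := by
  have hg := gen_sq.2 hw
  refine ⟨_, (long_iso (d := emb (gen w) D) hg).trans ?_⟩
  unfold ED curve
  rw [emb_tw hg]

theorem isoS {w : QBar} (hw : w ^ 2 = w - 2) (D : OO) :
    Iso (mK (emb (gen w) D)) (ED w (twK D)) := by
  have hg := gen_sq.2 hw
  have h1 := Pool.Agent.N843.E.gen_isoN (d := -(emb (gen w) D : K w)) hg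
  refine ⟨_, Eq.trans (congrArg _ ?_) (h1.trans ?_)⟩
  · unfold mK
    refine WeierstrassCurve.ext ?_ ?_ ?_ ?_ ?_
    · rfl
    · show -3 * (emb (gen w) D : K w) = 3 * -(emb (gen w) D : K w)
      ring
    · rfl
    · show -32 * (emb (gen w) D : K w) ^ 2 = -32 * (-(emb (gen w) D : K w)) ^ 2
      ring
    · show -64 * (emb (gen w) D : K w) ^ 3 = 64 * (-(emb (gen w) D : K w)) ^ 3
      ring
  · unfold ED curve
    rw [emb_tw hg]
    refine WeierstrassCurve.ext ?_ ?_ ?_ ?_ ?_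
    · rfl
    · show 3 * (1 - gen w) * (2 * -(emb (gen w) D : K w) * gen w - -(emb (gen w) D : K w)) =
        3 * (1 - gen w) * (emb (gen w) D - 2 * emb (gen w) D * gen w)
      ring
    · rfl
    · show gen w ^ 4 * (2 * -(emb (gen w) D : K w) * gen w - -(emb (gen w) D : K w)) ^ 2 =
        gen w ^ 4 * (emb (gen w) D - 2 * emb (gen w) D * gen w) ^ 2
      ring
    · rfl

end Pool.Agent.N843.K
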