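import Pool.Agent.N843.CK.Al
import Pool.Agent.N843.Ye

/-!
# The vanishing of the Selmer groups, `D ≡ 1` modulo `8` in the ring of integers
-/

set_option autoImplicit false
set_option linter.unusedSectionVars false
set_option linter.unusedSimpArgs false
set_option linter.unusedVariables false

namespace Pool.Agent.N843.K

open Pool.Agent.N843 Pool.Agent.N843.X
open Pool.Agent.Y698 (RR al al_sq aR aR_coe bR bR_coe cX cY co nR mul_cj cj_coe exists_gen e7 fR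
  nR_aR nR_bR sp_eq e7_mul e7_neg e7_one fR_ne irr_fR aR_mul_bR)
open Pool.Agent.Y698.SG (Pe sy gd mc mr inp lg lg_one lg_neg_one lg_mul sgn_prod sy_sgn sy_per)
open Pool.Agent.R426.QD (r4 Ev tp Pn Fa r4_a r4_unit r4_m4 exists_fac sy_mulO sy_oneO)
open Pool.Agent.R426.QC (sy_negm)
open Pool.Agent.W192.HK (sp)
open Pool.Agent.R384
open Pool.Agent.Y715.Red Pool.Agent.Y715.Nr Pool.Agent.W237.RK
open Pool.Agent.Y715.Gi (QB KK GK i₀_mem gk_fix)
open Pool.Agent.Y715.Df (Cmp exists_cmp)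
open Pool.Agent.Y715.Lc (norm_two_odd)

open scoped Classical

variable {i₀ : QB} (hi : i₀ ^ 2 = i₀ - 2)
variable {χ : GK i₀ →* ℤ_[2]ˣ} {m : OO} {r : QB}

/-- **the vanishing theorem** -/
theorem mainK {Δ : RR} {S : Finset RR} (h : FK Δ S)
    (hg : gd (mc fun p : RR => p) (mr fun p : RR => p) S ≠ 0) (cd : ChiD hi χ m r)
    (e : OO ≃+* RR) {ϖ ϖ' : OO} (hϖ : (ϖ = om ∧ ϖ' = 1 - om) ∨ (ϖ = 1 - om ∧ ϖ' = om))
    (he : e ϖ = aR) (he7 : e s7 = fR ∨ e s7 = -fR) (hem : e m = -fR * Δ)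
    (hm5 : ∀ ι : QB →ₐ[ℚ] PadicAlgCl 2, ‖em (iw hi ι) ϖ‖ < 1 → ‖em (iw hi ι) m - 5‖ ≤ 1 / 8)
    {c : GK i₀ → ℚ_[2]} (hc : Coc χ c)
    (hodd : ∀ (p : ℕ) [Fact p.Prime] (ι : QB →ₐ[ℚ] PadicAlgCl p), p ≠ 2 → CobOn χ (II ι) c)
    (hstr : ∀ ι : QB →ₐ[ℚ] PadicAlgCl 2, ‖ι (em hi ϖ)‖ < 1 → CobOn χ (DD ι) c) :
    ∃ y : ℚ_[2], ∀ σ, c σ = (vl χ σ - 1) * y := by
  classical
  by_contra hn
  have hϖp : Prime ϖ := by
    rcases hϖ with ⟨rfl, -⟩ | ⟨rfl, -⟩
    · exact prime_om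
    · exact prime_om'
  have hϖ2 : ϖ * ϖ' = 2 := by
    rcases hϖ with ⟨rfl, rfl⟩ | ⟨rfl, rfl⟩
    · exact om_mul
    · rw [mul_comm]; exact om_mul
  have hϖs : ϖ + ϖ' = 1 := by
    rcases hϖ with ⟨rfl, rfl⟩ | ⟨rfl, rfl⟩ <;> ring
  have he' : e ϖ' = bR := by
    have h1 : ϖ' = 1 - ϖ := by linear_combination hϖs
    rw [h1, map_sub, map_one, he]
    rfl
  -- the strict place
  obtain ⟨p, hpf, ι, hι⟩ := exists_emb hi hϖp
  have hp2 : p = 2 := by
    rw [ι_em] at hι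
    exact (two_of_dvd hϖp (iw hi ι) hι).2 ⟨_, hϖ2.symm⟩
  subst hp2
  have hι' : ‖em (iw hi ι) ϖ‖ < 1 := by rwa [ι_em] at hι
  have h5 := hm5 ι hι'
  obtain ⟨σ₀, -, hσ₀⟩ := exists_dec5 hi cd ι h5
  -- normalization
  obtain ⟨a, y, ha, hint, hmin⟩ := normalize hc (cd.big hi hσ₀) hn
  set c' : GK i₀ → ℚ_[2] := fun σ => a * c σ + (vl χ σ - 1) * y with hc'
  have hcc : Coc χ c' := hc.twist cd.cont a y
  have hodd' : ∀ (p : ℕ) [Fact p.Prime] (ι : QB →ₐ[ℚ] PadicAlgCl p), p ≠ 2 →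
      CobOn χ (II ι) c' := fun p _ ι hp => (hodd p ι hp).twist a y
  have hstr' : CobOn χ (DD ι) c' := (hstr ι hι).twist a y
  -- Kummer theory
  obtain ⟨δ, hδ, hkum⟩ := kum hi (md c') (md_cont hcc) (md_mul hcc hint)
  obtain ⟨s, hs⟩ : ∃ s : QB, s ^ 2 = em hi δ := IsAlgClosed.exists_pow_nat_eq _ (by norm_num)
  have hk : ∀ σ : GK i₀, σ s = s ↔ md c' σ = 0 := hkum s hs
  obtain ⟨hst1, hst2⟩ := loc_strict5 hi cd hint hϖp hι' h5 hstr' hδ hs hk
  have hfp : Prime fR := irr_fR.prime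
  have h7f : ∀ x : RR, e s7 ∣ x ↔ fR ∣ x := by
    intro x
    rcases he7 with h1 | h1 <;> rw [h1]
    rw [neg_dvd]
  -- the prime divisors of `δ`
  have hsup : ∀ π, Prime π → π ∣ e δ → π ∣ bR ∨ π ∣ fR ∨ π ∣ Δ := by
    intro π' hπ' hπδ'
    obtain ⟨π, rfl⟩ := e.surjective π'
    have hπ : Prime π := (e_prime e).1 hπ'
    have hπδ : π ∣ δ := (e_dvd e).1 hπδ'
    by_cases hπ2 : π ∣ 2
    · rw [← hϖ2] at hπ2
      rcases hπ.dvd_or_dvd hπ2 with h | h
      · exfalso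
        exact hst1 (((hπ.dvd_prime_iff_associated hϖp).1 h).symm.dvd.trans hπδ)
      · left
        rw [← he']
        exact (e_dvd e).2 h
    · by_cases hπm : π ∣ m
      · right
        have h1 : e π ∣ -fR * Δ := by
          rw [← hem]
          exact (e_dvd e).2 hπm
        rcases hπ'.dvd_or_dvd h1 with h2 | h2
        · rw [dvd_neg] at h2
          exact Or.inl h2
        · exact Or.inr h2
      · exfalso
        obtain ⟨l, hl, κ, hκ⟩ := exists_emb hi hπ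
        rw [ι_em] at hκ
        have hl2 : l ≠ 2 := fun h => hπ2 ((two_of_dvd hπ (iw hi κ) hκ).1 h)
        have h1 := unram hi cd hl2 (hodd' l κ hl2) ((dvd_iff (iw hi κ) hπ hκ m).not.1 hπm)
        refine not_dvd_of_fix (iw hi κ) hπ hκ hδ (s := κ s) ?_ ?_ hπδ
        · rw [← map_pow, hs, ι_em]
        · intro τ hin hτ
          exact fix_I (fun σ hσ => (hk σ).2 (h1 σ hσ)) τ hin hτ
  have hDne : Δ ≠ 0 := by
    rw [h.prod]
    exact h.ev.fa.prod_ne
  -- the prime divisors of `m`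
  have hloc : ∀ p ∈ S, (¬ p ∣ e δ ∧ sy p (e δ) = 1) ∨
      ∃ δ1 m1, e δ = p * δ1 ∧ -fR * Δ = p * m1 ∧ sy p (δ1 * m1) = 1 := by
    intro p' hp'
    obtain ⟨p, rfl⟩ := e.surjective p'
    obtain ⟨h1, h2, h3⟩ := (h.mem _).1 hp'
    have hpp : Prime p := (e_prime e).1 h1
    have hod := (h.ev.fa.pn _ hp').od
    have hp2 : ¬ p ∣ 2 := by
      intro hh
      apply hod
      have := (e_dvd e).2 hh
      rwa [map_ofNat] at this
    have hp7 : ¬ p ∣ s7 := by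
      intro hh
      have h5 := (e_dvd e).2 hh
      apply (h.ev.c7 _ hp').2
      rw [Ideal.mem_span_singleton]
      rcases he7 with h6 | h6 <;> rw [h6] at h5
      · exact h5
      · rwa [dvd_neg] at h5
    obtain ⟨m1, hm1, hm1'⟩ : ∃ m1, m = p * m1 ∧ ¬ p ∣ m1 := by
      have h5 : e m = e p * (-fR * ∏ k ∈ S.erase (e p), k) := by
        rw [hem, h.prod, ← Finset.mul_prod_erase S (fun k => k) hp']
        ring
      refine ⟨e.symm (-fR * ∏ k ∈ S.erase (e p), k), ?_, ?_⟩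
      · apply e.injective
        rw [h5, map_mul, e.apply_symm_apply]
      · intro hh
        have h6 := (e_dvd e).2 hh
        rw [e.apply_symm_apply] at h6
        rcases h1.dvd_or_dvd h6 with h7 | h7
        · rw [dvd_neg] at h7
          exact (h.ev.c7 _ hp').2 (Ideal.mem_span_singleton.2 h7)
        · obtain ⟨k, hk', h8⟩ := (h1.dvd_finsetProd_iff _).1 h7
          have hkS := Finset.mem_of_mem_erase hk'
          exact h.ev.fa.ne _ hkS _ hp' (Finset.ne_of_mem_erase hk')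
            (Ideal.mem_span_singleton.2 h8)
    obtain ⟨l, hl, κ, hκ⟩ := exists_emb hi hpp
    rw [ι_em] at hκ
    have hl2 : l ≠ 2 := fun h => hp2 ((two_of_dvd hpp (iw hi κ) hκ).1 h)
    rcases loc_g hi cd hcc hint hpp hp2 hp7 hm1 hm1' hκ (hodd' l κ hl2) hδ hs hk with
      ⟨g1, g2⟩ | ⟨δ1, m2, g1, g2, g3, g4⟩
    · exact Or.inl ⟨fun hh => g1 ((e_dvd e).1 hh), (sy_e e g1).2 g2⟩
    · right
      refine ⟨e δ1, e m2, by rw [g1, map_mul], by rw [← hem, g2, map_mul], ?_⟩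
      rw [← map_mul]
      refine (sy_e e fun hh => ?_).2 g4
      rcases hpp.dvd_or_dvd hh with g5 | g5
      · obtain ⟨t, ht⟩ := g5
        exact hpp.not_isUnit (hδ p ⟨t, by rw [g1, ht]; ring⟩)
      · exact g3 g5
  have hsy7 : ∀ {x : OO}, ¬ s7 ∣ x → Sqm s7 x → e7 (e x) = 1 := by
    intro x hx hx2
    have h1 := (sy_e e hx).2 hx2
    rcases he7 with h6 | h6 <;> rw [h6] at h1
    · rwa [Pool.Agent.R426.QD.sy_fR] at h1
    · rwa [sy_negm, Pool.Agent.R426.QD.sy_fR] at h1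
  have hloc7 : (¬ fR ∣ e δ ∧ e7 (e δ) = 1) ∨
      ∃ δ1, e δ = -fR * δ1 ∧ e7 (δ1 * Δ) = 1 := by
    obtain ⟨l, hl, κ, hκ⟩ := exists_emb hi prime_s7
    rw [ι_em] at hκ
    have hl7 := p_seven (iw hi κ) hκ
    have hl2 : l ≠ 2 := by rw [hl7]; norm_num
    obtain ⟨u, hu, hu2⟩ : ∃ u : RR, e s7 = u * -fR ∧ (u = 1 ∨ u = -1) := by
      rcases he7 with h6 | h6
      · exact ⟨-1, by rw [h6]; ring, Or.inr rfl⟩
      · exact ⟨1, by rw [h6]; ring, Or.inl rfl⟩
    have huu : u * u = 1 := by rcases hu2 with rfl | rfl <;> ring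
    have hmm : m = s7 * e.symm (u * Δ) := by
      apply e.injective
      rw [map_mul, e.apply_symm_apply, hem, hu]
      linear_combination (fR * Δ) * huu
    have hnd : ¬ s7 ∣ e.symm (u * Δ) := by
      intro hh
      have h6 := (e_dvd e).2 hh
      rw [e.apply_symm_apply, h7f] at h6
      have h7 : fR ∣ Δ := by
        rcases hu2 with rfl | rfl
        · rwa [one_mul] at h6
        · rwa [neg_one_mul, dvd_neg] at h6
      rw [h.prod] at h7
      obtain ⟨k, hk', h8⟩ := (hfp.dvd_finsetProd_iff _).1 h7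
      exact (h.ev.c7 _ hk').1 (Ideal.mem_span_singleton.2 h8)
    rcases loc_7 hi cd hcc hint hmm hnd hκ (hodd' l κ hl2) hδ hs hk with
      ⟨g1, g2⟩ | ⟨δ1, m2, g1, g2, g4⟩
    · exact Or.inl ⟨fun hh => g1 ((e_dvd e).1 ((h7f _).2 hh)), hsy7 g1 g2⟩
    · right
      have g3 : m2 = e.symm (u * Δ) :=
        mul_left_cancel₀ prime_s7.ne_zero (g2.symm.trans hmm)
      refine ⟨u * e δ1, by rw [g1, map_mul, hu]; ring, ?_⟩
      have g5 : ¬ s7 ∣ δ1 * m2 := by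
        intro hh
        rcases prime_s7.dvd_or_dvd hh with g6 | g6
        · obtain ⟨t, ht⟩ := g6
          exact prime_s7.not_isUnit (hδ s7 ⟨t, by rw [g1, ht]; ring⟩)
        · rw [g3] at g6
          exact hnd g6
      have g7 := hsy7 g5 g4
      rw [g3, map_mul, e.apply_symm_apply] at g7
      rw [← g7]
      congr 1
      ring
  -- modulo four
  obtain ⟨w4, hw4, h4a, h4e⟩ : ∃ w4 : ZMod 4, w4 ^ 2 = w4 - 2 ∧
      ((ϖ = om ∧ w4 = 2) ∨ (ϖ = 1 - om ∧ w4 = 3)) ∧ r4 (e om) = w4 := by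
    rcases hϖ with ⟨h1, h2⟩ | ⟨h1, h2⟩
    · refine ⟨2, by decide, Or.inl ⟨h1, rfl⟩, ?_⟩
      rw [← h1, he, r4_a]
    · refine ⟨3, by decide, Or.inr ⟨h1, rfl⟩, ?_⟩
      have h3 : om = 1 - ϖ := by rw [h1]; ring
      rw [h3, map_sub, map_one, he, map_sub, map_one, r4_a]
      decide
  have hm4 : em hw4 m = 1 := by
    apply em_four_one (iw hi ι) hw4 h4a hι'
    have e1 : em (iw hi ι) m - 1 = (em (iw hi ι) m - 5) + 4 := by ring
    rw [e1]
    exact add_le (h5.trans (by norm_num)) norm_four'.le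
  have hδ4 : em hw4 δ = 1 := by
    rcases hst2 with h | h
    · exact em_four_one (iw hi ι) hw4 h4a hι' (h.trans (by norm_num))
    · have h1 := em_four_one (iw hi ι) hw4 h4a hι' (h.trans (by norm_num))
      rwa [map_mul, hm4, mul_one] at h1
  have hδsq : Squarefree (e δ) := by
    intro x hx
    obtain ⟨x', rfl⟩ := e.surjective x
    rw [← map_mul, e_dvd] at hx
    exact (hδ x' hx).map e
  have hδ2 := algK h hg hδsq (by rw [r4_e e hw4 h4e, hδ4]) hsup hloc hloc7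
  rcases hδ2 with h | h
  · -- `δ = 1`
    have h' : δ = 1 := e.injective (by rw [h, map_one])
    rw [h', map_one] at hs
    obtain ⟨σ, hσ⟩ := hmin 0
    rw [mul_zero, sub_zero] at hσ
    apply hσ
    have h1 : σ s = s := by
      rcases sq_eq_one_iff.1 hs with h2 | h2
      · rw [h2, map_one]
      · rw [h2, map_neg, map_one]
    have h5 : ‖c' σ‖ < 1 := md_zero.1 ((hk σ).1 h1)
    exact h5
  · -- `δ = m`
    have h' : δ = m := e.injective (by rw [h, hem])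
    rw [h'] at hs
    have hsr : ∀ σ : GK i₀, σ s = s ↔ σ r = r := by
      intro σ
      have h1 : s ^ 2 = r ^ 2 := by rw [hs, cd.hr]
      rcases sq_eq_sq_iff_eq_or_eq_neg.1 h1 with h2 | h2
      · rw [h2]
      · rw [h2, map_neg, neg_inj]
    obtain ⟨σ, hσ⟩ := hmin (1 / 2)
    apply hσ
    have h2n : ‖(2 : ℚ_[2])‖ = 1 / 2 := norm_two'
    have h3 : ‖(vl χ σ - 1) * (1 / 2)‖ = 2 * ‖vl χ σ - 1‖ := by
      rw [norm_mul, norm_div, norm_one, h2n]
      ring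
    by_cases h4 : md c' σ = 0
    · have h5 : ‖c' σ‖ < 1 := md_zero.1 h4
      have h6 := (cd.iff hi σ).2 ((hsr σ).1 ((hk σ).2 h4))
      have e1 : c' σ - (vl χ σ - 1) * (1 / 2) = c' σ + -((vl χ σ - 1) * (1 / 2)) := by ring
      have h7 : ‖c' σ - (vl χ σ - 1) * (1 / 2)‖ < 1 := by
        rw [e1]
        refine add_lt' h5 ?_
        rw [norm_neg, h3]
        linarith
      exact h7
    · have h5 : ¬ ‖c' σ‖ < 1 := fun h => h4 (md_zero.2 h)
      have h6 := (md_eq (hint σ)).1 h5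
      have h7 : σ r = -r := by
        rcases rt_or hi cd.hr σ with h7 | h7
        · exact absurd ((hk σ).1 ((hsr σ).2 h7)) h4
        · exact h7
      have h8 := cd.big hi h7
      have h9 : ¬ ‖(vl χ σ - 1) * (1 / 2)‖ < 1 := by
        rw [h3, h8]
        norm_num
      have h10 := (md_eq (by rw [h3, h8]; norm_num)).1 h9
      have e1 : c' σ - (vl χ σ - 1) * (1 / 2) = (c' σ - 1) + -((vl χ σ - 1) * (1 / 2) - 1) := by
        ring
      rw [e1]
      exact add_lt' h6 (by rwa [norm_neg])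

end Pool.Agent.N843.K
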