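import Pool.Agent.N843.CK.Fo
import Pool.Agent.N843.CK.Cr
import Pool.Agent.N843.CK.Fin
import Pool.Agent.N843.Fa

/-!
# The conjugate of a good `D` and the fields `ℚ(√N(D))`, `ℚ(√(-7 N(D)))`
-/

set_option autoImplicit false
set_option linter.unusedSectionVars false
set_option linter.unusedSimpArgs false
set_option linter.unusedVariables false

namespace Pool.Agent.N843.K

open QuadraticAlgebra Filter
open Pool.Agent.N843 Pool.Agent.N843.X
open Pool.Agent.R426
open Pool.Agent.Y698 (RR aR bR fR)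
open Pool.Agent.Y698.SG (gd mc mr)
open Pool.Agent.R384

/-- the good numbers are closed under conjugation -/
theorem FO.conj {D : OO} (h : FO D) : FO (cj D) := by
  obtain ⟨S, hS, hg⟩ := h.fam
  refine ⟨?_, ?_, ?_, S.image Pool.Agent.R426.QD.cf, ?_, hS.gd_cj hg⟩
  · intro x hx
    have h1 : cj x * cj x ∣ D := by
      have h2 := map_dvd cjE hx
      rw [map_mul] at h2
      have h3 : cjE (cj D) = D := cj_cj' D
      rwa [h3] at h2
    have h4 := (h.sq _ h1).map cjE
    have h5 : cjE (cj x) = x := cj_cj' x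
    rwa [h5] at h4
  · have h1 := map_dvd cjE h.m8
    rw [map_sub, map_one, map_ofNat] at h1
    exact h1
  · intro h1
    have h2 := map_dvd cjE h1
    have h3 : cjE (cj D) = D := cj_cj' D
    have h4 : cjE s7 = -s7 := by
      show cj s7 = -s7
      ext <;> simp [cj, s7]
    rw [h3, h4, neg_dvd] at h2
    exact h.n7 h2
  · have h1 : pE (cj D) = Pool.Agent.Y698.cj (pE D) := by
      rw [← pE'_eq]
      rfl
    rw [h1]
    exact hS.cj

lemma mul_cjO (D : OO) : D * cj D = ((nm D : ℤ) : OO) := mul_cj D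

lemma nm_pos {D : OO} (h : D ≠ 0) : 0 < nm D := by
  unfold nm
  by_contra h1
  have h2 : (2 * D.re + D.im) ^ 2 + 7 * D.im ^ 2 ≤ 0 := by nlinarith
  have h3 : D.im = 0 := by nlinarith [sq_nonneg (2 * D.re + D.im), sq_nonneg D.im]
  have h4 : D.re = 0 := by
    rw [h3] at h2
    nlinarith [sq_nonneg D.re]
  exact h (by ext <;> simp [h3, h4])

/-- the norm of a squarefree element is a square only for the rational integers -/
theorem nm_sq {D : OO} (h : Squarefree D) (m : ℤ) (hm : nm D = m ^ 2) : D.im = 0 := by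
  have hD : D ≠ 0 := h.ne_zero
  have h1 : D * cj D = ((m : ℤ) : OO) ^ 2 := by
    rw [mul_cjO, hm]
    push_cast
    rfl
  have h2 : D ∣ ((m : ℤ) : OO) ^ 2 := ⟨cj D, h1.symm⟩
  have h3 : D ∣ ((m : ℤ) : OO) :=
    (Squarefree.dvd_pow_iff_dvd h two_ne_zero).1 h2
  obtain ⟨t, ht⟩ := h3
  have h4 : cj D = D * t ^ 2 := by
    apply mul_left_cancel₀ hD
    rw [h1, ht]
    ring
  -- the norm of `t`
  have h5 : nm (cj D) = nm D := by
    unfold nm
    simp [cj]
    ring
  have h6 : nm (D * t ^ 2) = nm D * nm t ^ 2 := by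
    unfold nm
    simp [pow_two]
    ring
  have h7 : nm t ^ 2 = 1 := by
    have h8 := nm_pos hD
    rw [← h4, h5] at h6
    have : nm D * (nm t ^ 2 - 1) = 0 := by linarith
    rcases mul_eq_zero.1 this with h9 | h9
    · omega
    · linarith
  have h8 : nm t = 1 := by
    have ht0 : t ≠ 0 := by
      rintro rfl
      rw [mul_zero] at ht
      rw [ht, zero_pow two_ne_zero] at h1
      have hc : cj D = 0 := by
        rcases mul_eq_zero.1 h1 with h9 | h9
        · exact absurd h9 hD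
        · exact h9
      rw [hc] at h5
      have h9 : nm (0 : OO) = 0 := by simp [nm]
      have := nm_pos hD
      omega
    have := nm_pos ht0
    nlinarith
  have h9 : t ^ 2 = 1 := by
    unfold nm at h8
    have a1 : (2 * t.re + t.im) ^ 2 + 7 * t.im ^ 2 = 4 := by linarith
    have a2 : t.im = 0 := by
      by_contra h0
      have : 1 ≤ t.im ^ 2 := by
        have := sq_nonneg t.im
        have : t.im ^ 2 ≠ 0 := pow_ne_zero 2 h0
        omega
      nlinarith [sq_nonneg (2 * t.re + t.im)]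
    have a3 : t.re ^ 2 = 1 := by
      rw [a2] at h8
      nlinarith
    ext
    · simp [pow_two, a2]
      nlinarith
    · simp [pow_two, a2]
  rw [h9, mul_one] at h4
  have h10 := congrArg (fun x : OO => x.im) h4
  simp [cj] at h10
  omega

/-- the pair `(e D, √N(D))` -/
theorem gpK_norm {D : OO} (h : FO D) {e : ℤ} (he : e = 1 ∨ e = -1) :
    GpK e ((e : OO) * D) (fun _ : Fin 1 => ((nm D : ℤ) : OO)) := by
  have h1 := e_sq he
  intro T
  rcases Finset.eq_empty_or_nonempty T with hT | hT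
  · refine ⟨D, 1, one_ne_zero, h, ?_⟩
    rw [hT, Finset.prod_empty]
    linear_combination D * h1
  · have hT' : T = {0} := by
      obtain ⟨x, hx⟩ := hT
      ext y
      rw [Finset.mem_singleton]
      have e1 : y = 0 := Subsingleton.elim _ _
      have e2 : x = 0 := Subsingleton.elim _ _
      constructor
      · intro _
        exact e1
      · intro _
        rw [e1, ← e2]
        exact hx
    refine ⟨cj D, D, h.sq.ne_zero, h.conj, ?_⟩
    rw [hT', Finset.prod_singleton, ← mul_cjO]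
    linear_combination (D * (D * cj D)) * h1

/-! ### the density of the `D` which are not rational integers -/

lemma im_zero_ncard (X : ℕ) : {D : OO | nm D ≤ X ∧ D.im = 0}.ncard ≤ 2 * Nat.sqrt X + 1 := by
  have h1 : {D : OO | nm D ≤ X ∧ D.im = 0} ⊆
      (fun a : ℤ => (⟨a, 0⟩ : OO)) '' (Finset.Icc (-(Nat.sqrt X : ℤ)) (Nat.sqrt X) : Set ℤ) := by
    rintro D ⟨h1, h2⟩
    refine ⟨D.re, ?_, ?_⟩
    · rw [Finset.mem_coe, Finset.mem_Icc]
      have h3 : D.re ^ 2 ≤ X := by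
        unfold nm at h1
        rw [h2] at h1
        linarith
      have h4 : D.re.natAbs ≤ Nat.sqrt X := by
        rw [Nat.le_sqrt']
        have : ((D.re.natAbs ^ 2 : ℕ) : ℤ) ≤ X := by
          push_cast
          rwa [sq_abs]
        exact_mod_cast this
      omega
    · ext
      · rfl
      · exact h2.symm
  refine (Set.ncard_le_ncard h1 ((Finset.finite_toSet _).image _)).trans ?_
  refine (Set.ncard_image_le (Finset.finite_toSet _)).trans ?_
  rw [Set.ncard_coe_finset, Int.card_Icc]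
  omega

theorem denI : Tendsto (fun X : ℕ => ({D : OO | nm D ≤ X ∧ FO D ∧ D.im ≠ 0}.ncard : ℝ) /
    ({D : OO | nm D ≤ X ∧ C8 D}.ncard : ℝ)) atTop (nhds QK.c2) := by
  have h1 := denK CK.t_DEN1
  obtain ⟨δ, hδ, h2⟩ := lowK CK.t_DEN1
  have hfin : ∀ (X : ℕ) (P : OO → Prop), {D : OO | nm D ≤ X ∧ P D}.Finite := fun X P =>
    (Pool.Agent.N848.W.fin_nm X).subset fun D hD => hD.1
  -- the error tends to zero
  have h3 : Tendsto (fun X : ℕ => (3 / δ) * ((X : ℝ) ^ (-(1 / 2 : ℝ)))) atTop (nhds 0) := by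
    rw [← mul_zero (3 / δ)]
    exact ((tendsto_rpow_neg_atTop (by norm_num : (0 : ℝ) < 1 / 2)).comp
      tendsto_natCast_atTop_atTop).const_mul _
  have h4 := h1.sub h3
  rw [sub_zero] at h4
  refine tendsto_of_tendsto_of_tendsto_of_le_of_le' h4 h1 ?_ ?_
  · filter_upwards [h2, eventually_ge_atTop 1] with X h5 h6
    have hX : (1 : ℝ) ≤ X := by exact_mod_cast h6
    have a1 : {D : OO | nm D ≤ X ∧ FO D} ⊆ {D : OO | nm D ≤ X ∧ FO D ∧ D.im ≠ 0} ∪
        {D : OO | nm D ≤ X ∧ D.im = 0} := by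
      rintro D ⟨h7, h8⟩
      by_cases h9 : D.im = 0
      · exact Or.inr ⟨h7, h9⟩
      · exact Or.inl ⟨h7, h8, h9⟩
    have a2 : {D : OO | nm D ≤ X ∧ FO D}.ncard ≤ {D : OO | nm D ≤ X ∧ FO D ∧ D.im ≠ 0}.ncard +
        (2 * Nat.sqrt X + 1) :=
      (Set.ncard_le_ncard a1 ((hfin X _).union (hfin X _))).trans
        ((Set.ncard_union_le _ _).trans (Nat.add_le_add_left (im_zero_ncard X) _))
    have a3 : {D : OO | nm D ≤ X ∧ FO D}.ncard ≤ {D : OO | nm D ≤ X ∧ C8 D}.ncard :=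
      Set.ncard_le_ncard (fun D hD => ⟨hD.1, hD.2.sq, hD.2.m8, hD.2.n7⟩) (hfin X _)
    obtain ⟨G, hG⟩ : ∃ G : ℝ, G = ({D : OO | nm D ≤ X ∧ FO D}.ncard : ℝ) := ⟨_, rfl⟩
    obtain ⟨G', hG'⟩ : ∃ G' : ℝ, G' = ({D : OO | nm D ≤ X ∧ FO D ∧ D.im ≠ 0}.ncard : ℝ) :=
      ⟨_, rfl⟩
    obtain ⟨C, hC⟩ : ∃ C : ℝ, C = ({D : OO | nm D ≤ X ∧ C8 D}.ncard : ℝ) := ⟨_, rfl⟩
    have a4 : G ≤ G' + (2 * (Nat.sqrt X : ℝ) + 1) := by
      rw [hG, hG']
      exact_mod_cast a2
    have a5 : G ≤ C := by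
      rw [hG, hC]
      exact_mod_cast a3
    rw [← hG] at h5
    rw [← hG, ← hG', ← hC]
    have a6 : (0 : ℝ) < δ * X := by positivity
    have a7 : 0 < C := lt_of_lt_of_le a6 (h5.trans a5)
    have a8 : (Nat.sqrt X : ℝ) ≤ Real.sqrt X := Real.nat_sqrt_le_real_sqrt
    have a9 : (1 : ℝ) ≤ Real.sqrt X := by
      rw [Real.one_le_sqrt]
      exact hX
    have b1 : G - G' ≤ 3 * Real.sqrt X := by linarith
    have b2 : (G - G') / C ≤ 3 / δ * (X : ℝ) ^ (-(1 / 2 : ℝ)) := by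
      have c1 : (X : ℝ) ^ (-(1 / 2 : ℝ)) = 1 / Real.sqrt X := by
        rw [Real.rpow_neg (by positivity), ← Real.sqrt_eq_rpow, one_div]
      have c2 : Real.sqrt X * Real.sqrt X = X := Real.mul_self_sqrt (by positivity)
      have c4 : 0 < Real.sqrt X := by linarith
      have c3 : 3 / δ * (1 / Real.sqrt X) = 3 * Real.sqrt X / (δ * X) := by
        rw [div_mul_div_comm, mul_one, div_eq_div_iff (by positivity) (by positivity)]
        linear_combination (-3 * δ) * c2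
      rw [c1, c3]
      calc (G - G') / C ≤ 3 * Real.sqrt X / C := by gcongr
        _ ≤ 3 * Real.sqrt X / (δ * X) := by
          apply div_le_div_of_nonneg_left (by positivity) a6 (h5.trans a5)
    have b3 : (G - G') / C = G / C - G' / C := sub_div _ _ _
    linarith
  · filter_upwards with X
    refine div_le_div_of_nonneg_right ?_ (by positivity)
    have b4 : {D : OO | nm D ≤ X ∧ FO D ∧ D.im ≠ 0} ⊆ {D : OO | nm D ≤ X ∧ FO D} :=
      fun D hD => ⟨hD.1, hD.2.1⟩
    exact_mod_cast Set.ncard_le_ncard b4 (hfin X _)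

/-- they are a positive proportion -/
theorem lowI : ∃ δ : ℝ, 0 < δ ∧ ∀ᶠ X : ℕ in atTop,
    δ * X ≤ ({D : OO | nm D ≤ X ∧ FO D ∧ D.im ≠ 0}.ncard : ℝ) := by
  obtain ⟨δ, hδ, h2⟩ := lowK CK.t_DEN1
  have hfin : ∀ (X : ℕ) (P : OO → Prop), {D : OO | nm D ≤ X ∧ P D}.Finite := fun X P =>
    (Pool.Agent.N848.W.fin_nm X).subset fun D hD => hD.1
  refine ⟨δ / 2, by positivity, ?_⟩
  have h3 : ∀ᶠ X : ℕ in atTop, 6 / δ ≤ Real.sqrt X :=
    (Real.tendsto_sqrt_atTop.comp tendsto_natCast_atTop_atTop).eventually_ge_atTop (6 / δ)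
  filter_upwards [h2, h3, eventually_ge_atTop 1] with X h5 h4 h6
  have hX : (1 : ℝ) ≤ X := by exact_mod_cast h6
  have a1 : {D : OO | nm D ≤ X ∧ FO D} ⊆ {D : OO | nm D ≤ X ∧ FO D ∧ D.im ≠ 0} ∪
      {D : OO | nm D ≤ X ∧ D.im = 0} := by
    rintro D ⟨h7, h8⟩
    by_cases h9 : D.im = 0
    · exact Or.inr ⟨h7, h9⟩
    · exact Or.inl ⟨h7, h8, h9⟩
  have a2 : {D : OO | nm D ≤ X ∧ FO D}.ncard ≤ {D : OO | nm D ≤ X ∧ FO D ∧ D.im ≠ 0}.ncard +
      (2 * Nat.sqrt X + 1) :=
    (Set.ncard_le_ncard a1 ((hfin X _).union (hfin X _))).trans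
      ((Set.ncard_union_le _ _).trans (Nat.add_le_add_left (im_zero_ncard X) _))
  have a4 : ({D : OO | nm D ≤ X ∧ FO D}.ncard : ℝ) ≤
      ({D : OO | nm D ≤ X ∧ FO D ∧ D.im ≠ 0}.ncard : ℝ) + (2 * (Nat.sqrt X : ℝ) + 1) := by
    exact_mod_cast a2
  have a8 : (Nat.sqrt X : ℝ) ≤ Real.sqrt X := Real.nat_sqrt_le_real_sqrt
  have a9 : (1 : ℝ) ≤ Real.sqrt X := by
    rw [Real.one_le_sqrt]
    exact hX
  have c2 : Real.sqrt X * Real.sqrt X = X := Real.mul_self_sqrt (by positivity)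
  have b1 : 3 * Real.sqrt X ≤ δ / 2 * X := by
    rw [div_le_iff₀ hδ] at h4
    nlinarith
  linarith

end Pool.Agent.N843.K
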