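import Pool.Agent.N843.CK.Va

/-!
# The quadratic symbol of the ring of integers
-/

set_option autoImplicit false
set_option linter.unusedSectionVars false
set_option linter.unusedSimpArgs false
set_option linter.unusedVariables false

namespace Pool.Agent.N843.K

open Pool.Agent.N843 Pool.Agent.N843.X
open Pool.Agent.Y698 (RR al al_sq aR aR_coe bR bR_coe cX cY co nR mul_cj cj_coe exists_gen e7 fR
  nR_aR nR_bR sp_eq e7_mul e7_neg e7_one fR_ne irr_fR)
open Pool.Agent.Y698.SG (Pe sy gd mc mr inp lg lg_one lg_neg_one lg_mul sgn_prod sy_sgn sy_per)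
open Pool.Agent.R426.QD (r4 Ev tp Pn Fa r4_a r4_unit r4_m4 exists_fac sy_mulO sy_oneO)
open Pool.Agent.W192.HK (sp)
open Pool.Agent.R384 (OO KD em om s7 Sqm)

open scoped Classical

/-- the quadratic symbol -/
noncomputable def sym (D x : OO) : ℤ :=
  if ∃ P : Ideal OO, P.IsPrime ∧ D ∈ P ∧ x ∈ P then 0
  else (-1) ^ {P : Ideal OO | P.IsPrime ∧ D ∈ P ∧ ∀ y : OO, y ^ 2 - x ∉ P}.ncard

lemma sym_neg (D x : OO) : sym (-D) x = sym D x := by
  unfold sym
  simp only [neg_mem_iff]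

variable {D : OO} {S : Finset RR}

lemma span_mem {p x : OO} : x ∈ (Ideal.span {p} : Ideal OO) ↔ p ∣ x := Ideal.mem_span_singleton

/-- the prime ideals containing `D` -/
lemma prime_of (h : FK (pE D) S) {P : Ideal OO} (hP : P.IsPrime) (hD : D ∈ P) :
    ∃ p ∈ S, P = Ideal.span {pE.symm p} := by
  obtain ⟨g, hg⟩ : ∃ g : OO, P = Ideal.span {g} := by
    obtain ⟨g, hg⟩ := (IsPrincipalIdealRing.principal P).principal
    exact ⟨g, hg⟩
  have hne : pE D ≠ 0 := by
    rw [h.prod]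
    exact h.ev.fa.prod_ne
  have hD0 : D ≠ 0 := fun h0 => hne (by rw [h0, map_zero])
  have hg0 : g ≠ 0 := by
    rintro rfl
    rw [hg, Ideal.mem_span_singleton] at hD
    exact hD0 (zero_dvd_iff.1 hD)
  have hpr : Prime g := by
    rw [hg] at hP
    exact (Ideal.span_singleton_prime hg0).1 hP
  have hgD : g ∣ D := by
    rw [hg, Ideal.mem_span_singleton] at hD
    exact hD
  have h1 : pE g ∣ ∏ p ∈ S, p := by
    rw [← h.prod]
    exact (e_dvd pE).2 hgD
  have h2 : Prime (pE g) := (e_prime pE).2 hpr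
  obtain ⟨p, hp, h3⟩ := (h2.dvd_finsetProd_iff _).1 h1
  refine ⟨p, hp, ?_⟩
  have h4 := h2.associated_of_dvd ((h.mem p).1 hp).1 h3
  rw [hg, Ideal.span_singleton_eq_span_singleton]
  have h5 := h4.map (pE.symm : RR →+* OO)
  have e1 : (pE.symm : RR →+* OO) (pE g) = g := pE.symm_apply_apply g
  rw [e1] at h5
  exact h5

lemma mem_P (h : FK (pE D) S) {p : RR} (hp : p ∈ S) :
    (Ideal.span {pE.symm p} : Ideal OO).IsPrime ∧ D ∈ (Ideal.span {pE.symm p} : Ideal OO) := by
  obtain ⟨h1, h2, h3⟩ := (h.mem p).1 hp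
  have hpr : Prime (pE.symm p) := by
    rw [← e_prime pE, pE.apply_symm_apply]
    exact h1
  refine ⟨(Ideal.span_singleton_prime hpr.ne_zero).2 hpr, ?_⟩
  rw [Ideal.mem_span_singleton, ← e_dvd pE, pE.apply_symm_apply]
  exact h2

lemma inj_P (h : FK (pE D) S) : Set.InjOn (fun p : RR => (Ideal.span {pE.symm p} : Ideal OO))
    (S : Set RR) := by
  intro p hp q hq hpq
  simp only at hpq
  obtain ⟨h1, h2, h3⟩ := (h.mem p).1 hp
  obtain ⟨g1, g2, g3⟩ := (h.mem q).1 hq
  refine eq_of_r4 h1 g1 ?_ h3 g3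
  have h4 : pE.symm q ∈ (Ideal.span {pE.symm p} : Ideal OO) := by
    rw [hpq]
    exact Ideal.mem_span_singleton_self _
  rw [Ideal.mem_span_singleton, ← e_dvd pE, pE.apply_symm_apply, pE.apply_symm_apply] at h4
  exact h4

/-- **the symbol** -/
theorem sym_eq (h : FK (pE D) S) (x : OO) :
    ((sym D x : ℤ) : ℂ) = X.ch (fun p : RR => p) S (pE x) := by
  unfold sym
  by_cases hz : ∃ P : Ideal OO, P.IsPrime ∧ D ∈ P ∧ x ∈ P
  · rw [if_pos hz]
    obtain ⟨P, hP, hD, hx⟩ := hz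
    obtain ⟨p, hp, hPp⟩ := prime_of h hP hD
    rw [hPp, Ideal.mem_span_singleton, ← e_dvd pE, pE.apply_symm_apply] at hx
    unfold X.ch
    rw [Finset.prod_eq_zero hp, Int.cast_zero]
    unfold sy
    rw [if_pos (Ideal.mem_span_singleton.2 hx)]
  · rw [if_neg hz]
    have hnd : ∀ p ∈ S, ¬ pE.symm p ∣ x := by
      intro p hp hpx
      obtain ⟨h1, h2⟩ := mem_P h hp
      exact hz ⟨_, h1, h2, Ideal.mem_span_singleton.2 hpx⟩
    have hsy : ∀ p ∈ S, sy p (pE x) = if ∀ y : OO, y ^ 2 - x ∉ (Ideal.span {pE.symm p} : Ideal OO)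
        then (-1 : ℂ) else 1 := by
      intro p hp
      have h1 : sy p (pE x) = 1 ↔ Sqm (pE.symm p) x := by
        have := sy_e pE (hnd p hp)
        rwa [pE.apply_symm_apply] at this
      have h2 : Sqm (pE.symm p) x ↔ ¬ ∀ y : OO, y ^ 2 - x ∉ (Ideal.span {pE.symm p} : Ideal OO) := by
        unfold Sqm
        push Not
        refine exists_congr fun y => ?_
        rw [Ideal.mem_span_singleton, ← dvd_neg, neg_sub]
      have h3 : sy p (pE x) = 1 ∨ sy p (pE x) = -1 := by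
        refine sy_sgn fun h4 => hnd p hp ?_
        rw [Ideal.mem_span_singleton] at h4
        rw [← e_dvd pE, pE.apply_symm_apply]
        exact h4
      by_cases h4 : ∀ y : OO, y ^ 2 - x ∉ (Ideal.span {pE.symm p} : Ideal OO)
      · rw [if_pos h4]
        rcases h3 with h5 | h5
        · exact absurd h4 (h2.1 (h1.1 h5))
        · exact h5
      · rw [if_neg h4]
        exact h1.2 (h2.2 h4)
    unfold X.ch
    rw [Finset.prod_congr rfl hsy, Finset.prod_ite, Finset.prod_const, Finset.prod_const_one,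
      mul_one]
    have hset : {P : Ideal OO | P.IsPrime ∧ D ∈ P ∧ ∀ y : OO, y ^ 2 - x ∉ P} =
        (fun p : RR => (Ideal.span {pE.symm p} : Ideal OO)) ''
          ((S.filter fun p => ∀ y : OO, y ^ 2 - x ∉ (Ideal.span {pE.symm p} : Ideal OO) :
            Finset RR) : Set RR) := by
      ext P
      simp only [Set.mem_ofPred_eq, Set.mem_image, Finset.coe_filter]
      constructor
      · rintro ⟨h1, h2, h3⟩
        obtain ⟨p, hp, rfl⟩ := prime_of h h1 h2
        exact ⟨p, ⟨hp, h3⟩, rfl⟩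
      · rintro ⟨p, ⟨hp, h3⟩, rfl⟩
        obtain ⟨h1, h2⟩ := mem_P h hp
        exact ⟨h1, h2, h3⟩
    rw [hset, Set.ncard_image_of_injOn ((inj_P h).mono fun p hp =>
      (Finset.mem_filter.1 (Finset.mem_coe.1 hp)).1), Set.ncard_coe_finset]
    push_cast
    rfl

end Pool.Agent.N843.K
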