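import Pool.Agent.N843.CK.Mn
import Pool.Agent.N843.El
import Pool.Agent.N843.Wn

/-!
# The vanishing of the Selmer groups for `E_D` and `E_{-D}`, `D ≡ 1` modulo `8` in the ring of integers
-/

set_option autoImplicit false
set_option linter.unusedSectionVars false
set_option linter.unusedSimpArgs false
set_option linter.unusedVariables false

namespace Pool.Agent.N843.K

open QuadraticAlgebra
open Pool.Agent.N843 Pool.Agent.N843.X
open Pool.Agent.Y698 (RR aR bR fR)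
open Pool.Agent.Y698.SG (gd mc mr)
open Pool.Agent.R384
open Pool.Agent.Y715.Red Pool.Agent.Y715.Nr Pool.Agent.W237.RK
open Pool.Agent.Y715.Gi (QB KK GK i₀_mem gk_fix)
open Pool.Agent.Y715.Df (Cmp exists_cmp)
open Pool.Agent.Y715.Lc (norm_two_odd)

open scoped Classical

/-- the conditions on `D` -/
structure FO (P : OO) : Prop where
  sq : Squarefree P
  m8 : (8 : OO) ∣ P - 1
  n7 : ¬ s7 ∣ P
  fam : ∃ S, FK (pE P) S ∧ gd (mc fun p : RR => p) (mr fun p : RR => p) S ≠ 0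

/-- the weights for the sign `e` -/
def Sg (e j : ℤ) : Prop := (e = 1 ∧ Odd j) ∨ (e = -1 ∧ Even j)

lemma pE'_eq (x : OO) : pE' x = Pool.Agent.Y698.cj (pE x) := by
  have h1 : x = (x.re : OO) + (x.im : OO) * om := by
    ext
    · simp [om]
    · simp [om]
  have h2 : pE' om = bR := by
    show pE (X.cjE om) = bR
    rw [cjE_om, map_sub, map_one, pE_om]
    rfl
  have e1 : pE' x = (x.re : RR) + (x.im : RR) * bR := by
    conv_lhs => rw [h1]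
    rw [map_add, map_mul, map_intCast, map_intCast, h2]
  have e2 : pE x = (x.re : RR) + (x.im : RR) * aR := by
    conv_lhs => rw [h1]
    rw [map_add, map_mul, map_intCast, map_intCast, pE_om]
  rw [e1, e2, map_add, map_mul, map_intCast, map_intCast, ← bR_cj]

section one

variable {i₀ : QB} (hi : i₀ ^ 2 = i₀ - 2)
variable {χ : GK i₀ →* ℤ_[2]ˣ} {m : OO} {r I : QB}

/-- the vanishing, both places -/
theorem vanC {P : OO} (hP : FO P) (cd : ChiD hi χ m r) {ϖ ϖ' : OO}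
    (hϖ : (m = -(s7 * P) ∧ ϖ = om ∧ ϖ' = 1 - om) ∨ (m = s7 * P ∧ ϖ = 1 - om ∧ ϖ' = om))
    {c : GK i₀ → ℚ_[2]} (hc : Coc χ c)
    (hodd : ∀ (p : ℕ) [Fact p.Prime] (ι : QB →ₐ[ℚ] PadicAlgCl p), p ≠ 2 → CobOn χ (II ι) c)
    (hstr : ∀ ι : QB →ₐ[ℚ] PadicAlgCl 2, ‖ι (em hi ϖ)‖ < 1 → CobOn χ (DD ι) c) :
    ∃ y : ℚ_[2], ∀ σ, c σ = (vl χ σ - 1) * y := by
  obtain ⟨S, hS, hg⟩ := hP.fam
  rcases hϖ with ⟨hm, h1, h2⟩ | ⟨hm, h1, h2⟩
  · refine mainK hi hS hg cd pE (Or.inl ⟨h1, h2⟩) (by rw [h1, pE_om]) (Or.inl pE_s7) ?_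
      (fun ι hι => ?_) hc hodd hstr
    · rw [hm, map_neg, map_mul, pE_s7]
      ring
    · rw [h1] at hι
      rw [hm]
      exact (s7_five hi hP.m8).1 hι
  · refine mainK hi hS.cj (hS.gd_cj hg) cd pE' (Or.inr ⟨h1, h2⟩) (by rw [h1, pE'_om'])
      (Or.inr pE'_s7) ?_ (fun ι hι => ?_) hc hodd hstr
    · rw [hm, map_mul, pE'_s7, pE'_eq]
    · rw [h1] at hι
      rw [hm]
      exact (s7_five hi hP.m8).2 hι

variable {κ κ' : GK i₀ →* ℤ_[2]ˣ}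

/-- the element `m` of the character -/
lemma chi_m {P D : OO} {e : ℤ} (hD : D = -(s7 * ((e : OO) * P))) (kd : KD hi κ κ' D r I) (j : ℤ) :
    ∃ m s, ChiD hi (κ ^ j * κ' ^ (1 - j)) m s ∧ (Sg e (1 - j) → m = -(s7 * P)) ∧
      (Sg e j → m = s7 * P) := by
  obtain ⟨m, s, hm, cd⟩ := chiD7 hi kd j
  refine ⟨m, s, cd, ?_, ?_⟩
  · rintro (⟨h1, h2⟩ | ⟨h1, h2⟩)
    · have hj : Even j := by
        have := Odd.sub_odd (odd_one : Odd (1 : ℤ)) h2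
        rwa [sub_sub_cancel] at this
      rcases hm with ⟨-, h⟩ | ⟨h, -⟩
      · rw [h, hD, h1, Int.cast_one, one_mul]
      · exact absurd hj (Int.not_even_iff_odd.2 h)
    · have hj : Odd j := by
        have := Odd.sub_even (odd_one : Odd (1 : ℤ)) h2
        rwa [sub_sub_cancel] at this
      rcases hm with ⟨h, -⟩ | ⟨-, h⟩
      · exact absurd h (Int.not_even_iff_odd.2 hj)
      · rw [h, hD, h1]
        push_cast
        ring
  · rintro (⟨h1, h2⟩ | ⟨h1, h2⟩)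
    · rcases hm with ⟨h, -⟩ | ⟨-, h⟩
      · exact absurd h (Int.not_even_iff_odd.2 h2)
      · rw [h, hD, h1]
        push_cast
        ring
    · rcases hm with ⟨-, h⟩ | ⟨h, -⟩
      · rw [h, hD, h1]
        push_cast
        ring
      · exact absurd h2 (Int.not_even_iff_odd.2 h)

/-- **The vanishing theorem** for the curve `E_{e P}`. -/
theorem vanP {P D : OO} (hP : FO P) {e : ℤ} (hD : D = -(s7 * ((e : OO) * P)))
    (kd : KD hi κ κ' D r I) (j : ℤ) {ϖ ϖ' : OO}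
    (hϖ : (Sg e (1 - j) ∧ ϖ = om ∧ ϖ' = 1 - om) ∨ (Sg e j ∧ ϖ = 1 - om ∧ ϖ' = om))
    {c : GK i₀ → ℚ_[2]} (hc : Coc (κ ^ j * κ' ^ (1 - j)) c)
    (hodd : ∀ (p : ℕ) [Fact p.Prime] (ι : QB →ₐ[ℚ] PadicAlgCl p), p ≠ 2 →
      CobOn (κ ^ j * κ' ^ (1 - j)) (II ι) c)
    (hstr : ∀ ι : QB →ₐ[ℚ] PadicAlgCl 2, ‖ι (em hi ϖ)‖ < 1 →
      CobOn (κ ^ j * κ' ^ (1 - j)) (DD ι) c) :
    ∃ y : ℚ_[2], ∀ σ, c σ = (vl (κ ^ j * κ' ^ (1 - j)) σ - 1) * y := by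
  obtain ⟨m, s, cd, h1, h2⟩ := chi_m hi hD kd j
  refine vanC hi hP cd (ϖ := ϖ) (ϖ' := ϖ') ?_ hc hodd hstr
  rcases hϖ with ⟨h3, h4⟩ | ⟨h3, h4⟩
  · exact Or.inl ⟨h1 h3, h4⟩
  · exact Or.inr ⟨h2 h3, h4⟩

variable {D : OO} {n : ℕ} {s : Fin n → QB}

/-- **The vanishing theorem over multiquadratic fields.** -/
theorem vanMq {E : Fin n → OO} (hE : ∀ i, s i ^ 2 = em hi (E i)) (kd : KD hi κ κ' D r I)
    (hD : D ≠ 0) (hE0 : ∀ i, E i ≠ 0) {e : ℤ}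
    (hgood : ∀ T : Finset (Fin n), ∃ P z : OO, FO P ∧ z ≠ 0 ∧
      D * ∏ i ∈ T, E i = -(s7 * ((e : OO) * P)) * z ^ 2) (j : ℤ) {ϖ ϖ' : OO}
    (hϖ : (Sg e (1 - j) ∧ ϖ = om ∧ ϖ' = 1 - om) ∨ (Sg e j ∧ ϖ = 1 - om ∧ ϖ' = om)) :
    VanOn hi ϖ (κ ^ j * κ' ^ (1 - j)) (fixs s Finset.univ) := by
  classical
  have hs0 : ∀ i, s i ≠ 0 := by
    intro i h
    have h1 := hE i
    rw [h, zero_pow two_ne_zero] at h1
    exact hE0 i (em_inj hi h1.symm)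
  have hs : ∀ (i) (σ : GK i₀), σ (s i) = s i ∨ σ (s i) = -s i := fun i σ => rt_or hi (hE i) σ
  refine van_all hi hs0 hs ϖ Finset.univ _ fun T _ => ?_
  obtain ⟨P, z, hP, hz, hprod⟩ := hgood T
  have kd1 := KD.twists hi hs0 hs hE kd hD hE0 T
  have hz0 : em hi z ≠ 0 := em_ne hi hz
  have kd2 := KD.resc hi kd1 (D' := -(s7 * ((e : OO) * P))) (u := (em hi z)⁻¹) (inv_ne_zero hz0)
    (fun σ => by rw [map_inv₀, gk_em]) (by
      rw [mul_pow, kd1.hr, hprod, map_mul, map_pow]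
      field_simp)
  set S := ∏ i ∈ T, sgc (es (hs0 i) (hs i)) with hS
  have e : κ ^ j * κ' ^ (1 - j) * S = (κ * S) ^ j * (κ' * S) ^ (1 - j) := by
    refine MonoidHom.ext fun σ => ?_
    have key : ∀ a b c : ℤ_[2]ˣ, a ^ j * b ^ (1 - j) * c = (a * c) ^ j * (b * c) ^ (1 - j) :=
      fun a b c => by
        rw [mul_zpow, mul_zpow, mul_mul_mul_comm, ← zpow_add, add_sub_cancel, zpow_one]
    exact key _ _ _
  intro c hc hodd hstr
  rw [e] at hc hodd hstr ⊢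
  obtain ⟨y, hy⟩ := vanP hi hP rfl kd2 j hϖ
    (c := c) ⟨by
      have := hc.cont
      rwa [Subgroup.coe_top, continuousOn_univ] at this, fun σ τ => hc.mul σ trivial τ trivial⟩
    (fun p _ ι hp => by
      obtain ⟨y, hy⟩ := hodd p ι hp
      exact ⟨y, fun σ hσ => hy σ hσ trivial⟩)
    (fun ι hι => by
      obtain ⟨y, hy⟩ := hstr ι hι
      exact ⟨y, fun σ hσ => hy σ hσ trivial⟩)
  exact ⟨y, fun σ _ => hy σ⟩

/-- there is an element of an inertia group of a place above seven at which the character is `-1` -/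
theorem exists_moneK {P D : OO} (h7 : ¬ s7 ∣ P) {e : ℤ} (he : e = 1 ∨ e = -1)
    (hD : D = -(s7 * ((e : OO) * P))) (kd : KD hi κ κ' D r I) (j : ℤ) :
    ∃ (p : ℕ) (_ : Fact p.Prime) (ι : QB →ₐ[ℚ] PadicAlgCl p), p ≠ 2 ∧
      ‖em (iw hi ι) s7‖ < 1 ∧
      ∃ (σ : GK i₀) (τ : Au p), Cmp ι τ σ ∧ Inert τ ∧ (κ ^ j * κ' ^ (1 - j)) σ = -1 := by
  obtain ⟨m, s, hm, cd⟩ := chiD7 hi kd j
  have heP : ¬ s7 ∣ (e : OO) * P ∧ ¬ s7 ∣ -((e : OO) * P) := by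
    rcases he with rfl | rfl
    · rw [Int.cast_one, one_mul, dvd_neg]
      exact ⟨h7, h7⟩
    · push_cast
      rw [neg_one_mul, neg_neg, dvd_neg]
      exact ⟨h7, h7⟩
  obtain ⟨m1, hm1, hm1'⟩ : ∃ m1, m = s7 * m1 ∧ ¬ s7 ∣ m1 := by
    rcases hm with ⟨-, h⟩ | ⟨-, h⟩
    · exact ⟨-((e : OO) * P), by rw [h, hD]; ring, heP.2⟩
    · exact ⟨(e : OO) * P, by rw [h, hD]; ring, heP.1⟩
  obtain ⟨l, hl, ι, hι⟩ := exists_emb hi prime_s7
  rw [ι_em] at hι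
  have hl7 := p_seven (iw hi ι) hι
  have hl2 : l ≠ 2 := by rw [hl7]; norm_num
  obtain ⟨σ₀, ⟨τ, hτ, hin⟩, h2⟩ := exists_ram hi cd prime_s7 hm1 hm1' hι
  exact ⟨l, hl, ι, hl2, hι, σ₀, τ, hτ, hin, (cd.inert l ι τ σ₀ hl2 hτ hin).2 h2⟩

/-- the inertia groups of the places above seven fix the square roots of elements prime to seven -/
lemma fix_sevenK {x : OO} (h7 : ¬ s7 ∣ x) {a : QB} (ha : a ^ 2 = em hi x) {p : ℕ} [Fact p.Prime]
    (hp : p ≠ 2) {ι : QB →ₐ[ℚ] PadicAlgCl p} (hι : ‖em (iw hi ι) s7‖ < 1) {σ : GK i₀} {τ : Au p}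
    (h : Cmp ι τ σ) (hin : Inert τ) : σ a = a := by
  have h1 : (ι a) ^ 2 = em (iw hi ι) x := by
    rw [← map_pow, ha, ι_em]
  have h2 : τ (ι a) = ι a := by
    refine fix_of_unit (iw hi ι) hp h1 ?_ hin h.fix
    rw [← dvd_iff (iw hi ι) prime_s7 hι]
    exact h7
  apply ι.injective
  show ι (σ a) = ι a
  rw [← h, h2]

/-- the characters are not trivial on the Galois groups of the multiquadratic fields -/
theorem exists_fixK {E : Fin n → OO} (hE : ∀ i, s i ^ 2 = em hi (E i)) (kd : KD hi κ κ' D r I)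
    {e : ℤ} (he : e = 1 ∨ e = -1)
    (hgood : ∀ T : Finset (Fin n), ∃ P z : OO, FO P ∧ z ≠ 0 ∧
      D * ∏ i ∈ T, E i = -(s7 * ((e : OO) * P)) * z ^ 2) (j : ℤ) :
    ∃ σ : GK i₀, (∀ i, σ (s i) = s i) ∧ (κ ^ j * κ' ^ (1 - j)) σ = -1 := by
  obtain ⟨P0, z0, hP0, hz0, he0⟩ := hgood ∅
  rw [Finset.prod_empty, mul_one] at he0
  have hz0' : em hi z0 ≠ 0 := em_ne hi hz0
  have kd2 : KD hi κ κ' (-(s7 * ((e : OO) * P0))) ((em hi z0)⁻¹ * r) I := by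
    refine KD.resc hi kd (inv_ne_zero hz0') (fun σ => by rw [map_inv₀, gk_em]) ?_
    rw [mul_pow, kd.hr, he0, map_mul, map_pow]
    field_simp
  obtain ⟨p, hp, ι, hp2, hι, σ, τ, hc, hin, hσ⟩ := exists_moneK hi hP0.n7 he rfl kd2 j
  refine ⟨σ, fun i => ?_, hσ⟩
  obtain ⟨P1, z1, hP1, hz1, he1⟩ := hgood {i}
  rw [Finset.prod_singleton] at he1
  obtain ⟨a, ha⟩ : ∃ a : QB, a ^ 2 = em hi (P0 * P1) :=
    IsAlgClosed.exists_pow_nat_eq _ (by norm_num)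
  have h7 : ¬ s7 ∣ P0 * P1 := by
    intro h
    rcases prime_s7.dvd_or_dvd h with h | h
    · exact hP0.n7 h
    · exact hP1.n7 h
  have hfa := fix_sevenK hi h7 ha hp2 hι hc hin
  have hP00 : P0 ≠ 0 := hP0.sq.ne_zero
  -- `P0 z0² E_i = P1 z1²`
  have hrel : P0 * z0 ^ 2 * E i = P1 * z1 ^ 2 := by
    have h1 : (-(s7 * (e : OO))) * (P0 * z0 ^ 2 * E i) = (-(s7 * (e : OO))) * (P1 * z1 ^ 2) := by
      have h2 : -(s7 * ((e : OO) * P0)) * z0 ^ 2 * E i = -(s7 * ((e : OO) * P1)) * z1 ^ 2 := by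
        rw [← he0]
        exact he1
      linear_combination h2
    refine mul_left_cancel₀ ?_ h1
    refine neg_ne_zero.2 (mul_ne_zero prime_s7.ne_zero ?_)
    rcases he with rfl | rfl
    · rw [Int.cast_one]
      exact one_ne_zero
    · push_cast
      exact neg_ne_zero.2 one_ne_zero
  have h1 : (s i * em hi (P0 * z0)) ^ 2 = (a * em hi z1) ^ 2 := by
    rw [mul_pow (s i), mul_pow a, hE i, ha, ← map_pow, ← map_mul, ← map_pow, ← map_mul]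
    congr 1
    linear_combination P0 * hrel
  have hne : em hi (P0 * z0) ≠ 0 := em_ne hi (mul_ne_zero hP00 hz0)
  have hfix : ∀ y : QB, y = a * em hi z1 ∨ y = -(a * em hi z1) → σ y = y := by
    rintro y (rfl | rfl)
    · rw [map_mul, gk_em, hfa]
    · rw [map_neg, map_mul, gk_em, hfa]
  have h3 := hfix _ (sq_eq_sq_iff_eq_or_eq_neg.1 h1)
  rw [map_mul, gk_em] at h3
  exact mul_right_cancel₀ hne h3

end one

end Pool.Agent.N843.K
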